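import Pool.Agent.Helper70.CU.Num
import Pool.Agent.Helper70.MM.AllC
import Pool.Agent.Helper79.CU.Order

/-!
# The cube: the vertices carry the maximising measure for `ℓ ≤ max 1 (√n / 6)`
-/

set_option autoImplicit false

open MeasureTheory Set Metric
open scoped ENNReal Topology
open Pool.Agent.Results.MP_91ee6f_gt
open Pool.Agent.Helper70.MM

namespace Pool.Agent.Helper70.CU

lemma PV_single {n : ℕ} (hn : 1 ≤ n) (ℓ t : ℝ) (i : Fin n) :
    PV n ℓ (EuclideanSpace.single i t) = FF n ℓ t :=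
  Pool.Agent.Helper62.MM.PV_edge hn ℓ t i

theorem edge {n : ℕ} {ℓ : ℝ} (h1 : 1 < ℓ) (h2 : ℓ ≤ Real.sqrt n / 6) (i : Fin n) (s : ℝ)
    (hs : 0 ≤ s) (hsl : s ≤ ℓ) : PV n ℓ 0 ≤ PV n ℓ (EuclideanSpace.single i s) := by
  have h3 : 6 * ℓ ≤ Real.sqrt n := by linarith
  have hn : 37 ≤ n := by
    have h4 : (6 * ℓ) ^ 2 ≤ n := (Real.le_sqrt' (by linarith : (0 : ℝ) < 6 * ℓ)).1 h3
    have h5 : (36 : ℝ) < n := by nlinarith
    have h6 : 36 < n := by exact_mod_cast h5
    omega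
  have h0 : (EuclideanSpace.single i (0 : ℝ) : En n) = 0 := by
    ext j
    rw [PiLp.single_apply]
    simp
  rw [← h0, PV_single (by omega), PV_single (by omega)]
  exact FF_min hn h1.le h3 (num hn h1.le h3) hs hsl

theorem cube_vertices2 (n : ℕ) (hn : 2 ≤ n) (ℓ : ℝ) (hℓ : 0 < ℓ) :
    ∃ w : Measure (En n), IsTheMaximising (cube n ℓ) w ∧
      (w = vertUnif n ℓ → 1 ≤ vertSlope n ℓ) ∧
      (w = vertUnif n ℓ → ℓ < 2 * Real.sqrt n) ∧
      (n ≤ 3 → 1 ≤ vertSlope n ℓ → w = vertUnif n ℓ) ∧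
      (4 ≤ n → ℓ ≤ max 1 (Real.sqrt n / 6) → w = vertUnif n ℓ) ∧
      (w = vertUnif n ℓ → w.support = range (vert n ℓ) ∧
        MaxDiversity (cube n ℓ) (2 ^ n /
          ∑ k ∈ Finset.range (n + 1), (n.choose k : ℝ) * Real.exp (-(Real.sqrt k * ℓ)))) := by
  obtain ⟨w, hw, hw1, hw2, hw3, hw4⟩ := cube_vertices n hn ℓ hℓ
  refine ⟨w, hw, hw1, ?_, hw2, ?_, hw4⟩
  · intro h
    by_contra hcon
    exact absurd (hw1 h) (not_le.2 (Pool.Agent.Helper79.CU.order n ℓ hn (not_lt.1 hcon)))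
  · intro h4 hmax
    rcases le_or_gt ℓ 1 with h1 | h1
    · exact hw3 h4 h1
    · have h2 : ℓ ≤ Real.sqrt n / 6 := by
        rcases le_max_iff.1 hmax with h | h
        · linarith
        · exact h
      obtain ⟨hb1, hb2, hb3, hb4, hcomp, hne, hb5⟩ := fCBASE n ℓ hℓ
      have hmin := fFRED n ℓ (by omega) hℓ (fun i s hs hsl => edge h1 h2 i s hs hsl)
      have hPVpos : 0 < PV n ℓ 0 := by
        unfold PV
        exact Finset.sum_pos (fun T _ => Real.exp_pos _) Finset.univ_nonempty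
      obtain ⟨μ, hμw, huniq⟩ := hw
      obtain ⟨μ', g1, g2, g3, g4⟩ := fCRIT n (cube n ℓ) hcomp (vertUnif n ℓ) hb2
        (by
          have h6 : (vertUnif n ℓ).supportᶜ ⊇ (cube n ℓ)ᶜ := by
            rw [hb4]
            exact compl_subset_compl.2 hb5
          exact measure_mono_null h6 Measure.measure_compl_support)
        (PV n ℓ 0 / 2 ^ n) (by positivity)
        (fun x hx => by
          rw [hb3]
          have := hmin x hx
          gcongr)
        (fun x hx => by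
          rw [hb4] at hx
          obtain ⟨T, rfl⟩ := hx
          rw [hb3, (fCSYM n ℓ (by omega) hℓ).1 T])
      have hμ' : μ' = μ := (huniq μ').1 g2
      rw [hμw, ← hμ']
      exact g1

end Pool.Agent.Helper70.CU
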