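import Pool.Agent.Helper70.CU.Conc
import Pool.Agent.Helper70.MM.Goals3

/-!
# The exact threshold for large `n`: the terms
-/

set_option autoImplicit false

open Set
open Pool.Agent.Helper70.MM (ff sl)

namespace Pool.Agent.Helper70.CU

lemma ff_pos (ℓ : ℝ) {r : ℝ} (hr : 0 < r) : 0 < ff ℓ r := by
  unfold ff
  have : 0 < Real.sqrt r := Real.sqrt_pos.2 hr
  positivity

lemma ff_anti {ℓ r r' : ℝ} (hℓ : 0 ≤ ℓ) (hr : 0 < r) (h : r ≤ r') : ff ℓ r' ≤ ff ℓ r := by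
  unfold ff
  have h1 : 0 < Real.sqrt r := Real.sqrt_pos.2 hr
  have h2 : Real.sqrt r ≤ Real.sqrt r' := Real.sqrt_le_sqrt h
  gcongr

/-- ratio of two values of `ff` -/
lemma ff_ratio {ℓ j p q : ℝ} (hℓ : 0 ≤ ℓ) (hj : 0 < j) (hp : 0 ≤ p) (hpq : p ≤ q) :
    ff ℓ (j + p) ≤ ff ℓ (j + q) * Real.exp ((q - p) * (ℓ / (2 * Real.sqrt j) + 1 / (2 * j))) := by
  have hsj : 0 < Real.sqrt j := Real.sqrt_pos.2 hj
  have hP : 0 < Real.sqrt (j + p) := Real.sqrt_pos.2 (by linarith)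
  have hQ : 0 < Real.sqrt (j + q) := Real.sqrt_pos.2 (by linarith)
  have hjP : Real.sqrt j ≤ Real.sqrt (j + p) := Real.sqrt_le_sqrt (by linarith)
  have hjQ : Real.sqrt j ≤ Real.sqrt (j + q) := Real.sqrt_le_sqrt (by linarith)
  have hPP : Real.sqrt (j + p) ^ 2 = j + p := Real.sq_sqrt (by linarith)
  have hQQ : Real.sqrt (j + q) ^ 2 = j + q := Real.sq_sqrt (by linarith)
  have hPQ : Real.sqrt (j + p) ≤ Real.sqrt (j + q) := Real.sqrt_le_sqrt (by linarith)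
  have h1 : Real.sqrt (j + q) - Real.sqrt (j + p) ≤ (q - p) / (2 * Real.sqrt j) := by
    rw [le_div_iff₀ (by positivity)]
    nlinarith [mul_nonneg (sub_nonneg.2 hPQ)
      (by linarith : 0 ≤ Real.sqrt (j + q) + Real.sqrt (j + p) - 2 * Real.sqrt j)]
  have h2 : Real.sqrt (j + q) ≤ Real.sqrt (j + p) * Real.exp ((q - p) * (1 / (2 * j))) := by
    apply Real.sqrt_le_iff.2
    refine ⟨by positivity, ?_⟩
    rw [mul_pow, hPP, ← Real.exp_nat_mul]
    have h3 := Real.add_one_le_exp (((2 : ℕ) : ℝ) * ((q - p) * (1 / (2 * j))))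
    have h4 : ((2 : ℕ) : ℝ) * ((q - p) * (1 / (2 * j))) = (q - p) / j := by
      push_cast; field_simp
    rw [h4] at h3 ⊢
    have h5 : (q - p) ≤ (j + p) * ((q - p) / j) := by
      rw [mul_div_assoc', le_div_iff₀ hj]
      nlinarith [mul_nonneg hp (sub_nonneg.2 hpq)]
    nlinarith
  have h3 : Real.exp (-(ℓ * Real.sqrt (j + p))) ≤
      Real.exp (-(ℓ * Real.sqrt (j + q))) * Real.exp ((q - p) * (ℓ / (2 * Real.sqrt j))) := by
    rw [← Real.exp_add]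
    apply Real.exp_le_exp.2
    have h4 : ℓ * (Real.sqrt (j + q) - Real.sqrt (j + p)) ≤ ℓ * ((q - p) / (2 * Real.sqrt j)) :=
      mul_le_mul_of_nonneg_left h1 hℓ
    have h5 : (q - p) * (ℓ / (2 * Real.sqrt j)) = ℓ * ((q - p) / (2 * Real.sqrt j)) := by
      field_simp
    rw [h5]
    linarith
  unfold ff
  rw [mul_add, Real.exp_add, div_mul_eq_mul_div, div_le_div_iff₀ hP hQ]
  calc Real.exp (-(ℓ * Real.sqrt (j + p))) * Real.sqrt (j + q)
      ≤ (Real.exp (-(ℓ * Real.sqrt (j + q))) * Real.exp ((q - p) * (ℓ / (2 * Real.sqrt j)))) *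
        (Real.sqrt (j + p) * Real.exp ((q - p) * (1 / (2 * j)))) := by
        gcongr
    _ = _ := by ring

/-- `(1-y)e^{2y} ≤ 1+y` -/
lemma y_ineq {y : ℝ} (hy : 0 ≤ y) : (1 - y) * Real.exp (2 * y) ≤ 1 + y := by
  have hmono : MonotoneOn (fun y : ℝ => (1 + y) - (1 - y) * Real.exp (2 * y)) (Ici 0) := by
    apply monotoneOn_of_deriv_nonneg (convex_Ici 0)
    · fun_prop
    · fun_prop
    · intro x hx
      have h1 : HasDerivAt (fun y : ℝ => (1 + y) - (1 - y) * Real.exp (2 * y))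
          (1 - (-1 * Real.exp (2 * x) + (1 - x) * (Real.exp (2 * x) * 2))) x := by
        have a1 : HasDerivAt (fun y : ℝ => 1 + y) 1 x := (hasDerivAt_id x).const_add 1
        have a2 : HasDerivAt (fun y : ℝ => 1 - y) (-1) x := (hasDerivAt_id x).const_sub 1
        have a3 : HasDerivAt (fun y : ℝ => Real.exp (2 * y)) (Real.exp (2 * x) * 2) x := by
          have := ((hasDerivAt_id x).const_mul 2).exp
          simpa using this
        exact a1.sub (a2.mul a3)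
      rw [h1.deriv]
      have h2 := Real.add_one_le_exp (-(2 * x))
      have h3 : Real.exp (-(2 * x)) * Real.exp (2 * x) = 1 := by
        rw [← Real.exp_add]; simp
      nlinarith [Real.exp_pos (2 * x)]
  have := hmono (mem_Ici.2 (le_refl (0 : ℝ))) (mem_Ici.2 hy) hy
  simp at this
  linarith

/-- the `j`-th term of the derivative along the edge -/
noncomputable def DJ (ℓ j u v : ℝ) : ℝ := u * ff ℓ (j + u ^ 2) - v * ff ℓ (j + v ^ 2)

/-- GOOD -/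
lemma DJ_good {ℓ j u v : ℝ} (hℓ : 0 ≤ ℓ) (hj : 0 < j)
    (hθ : ℓ / (2 * Real.sqrt j) + 1 / (2 * j) ≤ 1.94) (hv : 0 ≤ v) (hvu : v ≤ u)
    (huv : u + v = 1) : 0.014 * ((u - v) * ff ℓ (j + 1)) ≤ DJ ℓ j u v := by
  have hu : 0 < u := by linarith
  have hy0 : 0 ≤ u - v := by linarith
  have hy1 : u - v ≤ 1 := by linarith
  have h1 := ff_ratio (ℓ := ℓ) (j := j) (p := v ^ 2) (q := u ^ 2) hℓ hj (by positivity) (by gcongr)
  have e1 : u ^ 2 - v ^ 2 = u - v := by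
    have : u ^ 2 - v ^ 2 = (u - v) * (u + v) := by ring
    rw [this, huv, mul_one]
  rw [e1] at h1
  have hF : 0 < ff ℓ (j + u ^ 2) := ff_pos ℓ (by positivity)
  have h2 : Real.exp ((u - v) * (ℓ / (2 * Real.sqrt j) + 1 / (2 * j))) ≤
      Real.exp (2 * (u - v)) * Real.exp (-(0.06 * (u - v))) := by
    rw [← Real.exp_add]
    apply Real.exp_le_exp.2
    nlinarith
  have h3 : v * Real.exp (2 * (u - v)) ≤ u := by
    have := y_ineq hy0
    have e2 : 1 - (u - v) = 2 * v := by linarith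
    have e3 : 1 + (u - v) = 2 * u := by linarith
    rw [e2, e3] at this
    linarith
  have h4 : Real.exp (-(0.06 * (u - v))) ≤ 1 - 0.03 * (u - v) := by
    have h5 := Real.add_one_le_exp (0.06 * (u - v))
    rw [Real.exp_neg]
    rw [inv_le_comm₀ (Real.exp_pos _) (by nlinarith)]
    refine le_trans ?_ h5
    rw [inv_le_iff_one_le_mul₀ (by nlinarith)]
    nlinarith
  have h6 : v * ff ℓ (j + v ^ 2) ≤ ff ℓ (j + u ^ 2) * (u * (1 - 0.03 * (u - v))) := by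
    calc v * ff ℓ (j + v ^ 2) ≤ v * (ff ℓ (j + u ^ 2) *
          (Real.exp (2 * (u - v)) * Real.exp (-(0.06 * (u - v))))) := by
          refine mul_le_mul_of_nonneg_left (h1.trans ?_) hv
          gcongr
      _ = ff ℓ (j + u ^ 2) * ((v * Real.exp (2 * (u - v))) * Real.exp (-(0.06 * (u - v)))) := by
          ring
      _ ≤ ff ℓ (j + u ^ 2) * (u * (1 - 0.03 * (u - v))) := by
          refine mul_le_mul_of_nonneg_left ?_ hF.le
          refine mul_le_mul h3 h4 (Real.exp_pos _).le hu.le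
  have h7 : ff ℓ (j + 1) ≤ ff ℓ (j + u ^ 2) := by
    apply ff_anti hℓ (by positivity)
    nlinarith
  unfold DJ
  have h8 : 0 < ff ℓ (j + 1) := ff_pos ℓ (by linarith)
  have h9 : (1 : ℝ) / 2 ≤ u := by linarith
  have h10 : 0.015 * (u - v) ≤ u * (0.03 * (u - v)) := by nlinarith
  nlinarith [mul_nonneg hy0 h8.le, mul_nonneg hy0 hF.le, mul_le_mul_of_nonneg_left h7 hy0,
    mul_le_mul_of_nonneg_left h10 hF.le]

lemma ff_ratio8 {ℓ j : ℝ} (hℓ : 0 ≤ ℓ) (hj : 0 < j)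
    (hθ : ℓ / (2 * Real.sqrt j) + 1 / (2 * j) ≤ 1.94) : ff ℓ j ≤ 8 * ff ℓ (j + 1) := by
  have h1 := ff_ratio (ℓ := ℓ) (j := j) (p := 0) (q := 1) hℓ hj le_rfl zero_le_one
  rw [add_zero, sub_zero, one_mul] at h1
  have h2 : Real.exp (ℓ / (2 * Real.sqrt j) + 1 / (2 * j)) ≤ 8 := by
    have h3 : Real.exp (ℓ / (2 * Real.sqrt j) + 1 / (2 * j)) ≤ Real.exp 2 :=
      Real.exp_le_exp.2 (by linarith)
    have h4 : Real.exp 2 = Real.exp 1 * Real.exp 1 := by rw [← Real.exp_add]; norm_num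
    have h5 : Real.exp 1 < 2.7182818286 := Real.exp_one_lt_d9
    have h6 := Real.exp_pos 1
    nlinarith
  have h7 : 0 < ff ℓ (j + 1) := ff_pos ℓ (by linarith)
  nlinarith

/-- all terms, first bound -/
lemma DJ_all1 {ℓ j u v : ℝ} (hℓ : 0 ≤ ℓ) (hj : 0 < j) (hv : 0 ≤ v) (hu : 0 ≤ u) (hu1 : u ≤ 1) :
    u * ff ℓ (j + 1) - v * ff ℓ j ≤ DJ ℓ j u v := by
  unfold DJ
  have h1 : ff ℓ (j + 1) ≤ ff ℓ (j + u ^ 2) := ff_anti hℓ (by positivity) (by nlinarith)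
  have h2 : ff ℓ (j + v ^ 2) ≤ ff ℓ j := ff_anti hℓ hj (by nlinarith [sq_nonneg v])
  nlinarith [mul_le_mul_of_nonneg_left h1 hu, mul_le_mul_of_nonneg_left h2 hv]

/-- all terms, second bound -/
lemma DJ_all2 {ℓ j u v : ℝ} (hℓ : 0 ≤ ℓ) (hj : 1 ≤ j) (hv : 0 ≤ v) (hvu : v ≤ u)
    (huv : u + v = 1) : -((ℓ + 1) * ((u - v) * ff ℓ j)) ≤ DJ ℓ j u v := by
  have hj0 : 0 < j := by linarith
  have hy0 : 0 ≤ u - v := by linarith
  have h1 := ff_ratio (ℓ := ℓ) (j := j) (p := v ^ 2) (q := u ^ 2) hℓ hj0 (by positivity)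
    (by gcongr)
  have e1 : u ^ 2 - v ^ 2 = u - v := by
    have : u ^ 2 - v ^ 2 = (u - v) * (u + v) := by ring
    rw [this, huv, mul_one]
  rw [e1] at h1
  set θ := ℓ / (2 * Real.sqrt j) + 1 / (2 * j) with hθdef
  have hθ0 : 0 ≤ θ := by positivity
  have hθ1 : θ ≤ ℓ + 1 := by
    have hs : 1 ≤ Real.sqrt j := Real.one_le_sqrt.2 hj
    have a1 : ℓ / (2 * Real.sqrt j) ≤ ℓ := div_le_self hℓ (by linarith)
    have a2 : 1 / (2 * j) ≤ 1 := by
      rw [div_le_one (by positivity)]; linarith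
    linarith
  have hFv : 0 < ff ℓ (j + v ^ 2) := ff_pos ℓ (by positivity)
  have hFu : 0 < ff ℓ (j + u ^ 2) := ff_pos ℓ (by positivity)
  -- `ff (j+u²) ≥ ff (j+v²) (1 - yθ)`
  have h2 : ff ℓ (j + v ^ 2) * (1 - (u - v) * θ) ≤ ff ℓ (j + u ^ 2) := by
    have h3 := Real.add_one_le_exp (-((u - v) * θ))
    have h4 : ff ℓ (j + v ^ 2) * Real.exp (-((u - v) * θ)) ≤ ff ℓ (j + u ^ 2) := by
      rw [Real.exp_neg, ← div_eq_mul_inv, div_le_iff₀ (Real.exp_pos _)]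
      exact h1
    refine le_trans ?_ h4
    refine mul_le_mul_of_nonneg_left ?_ hFv.le
    linarith
  have h5 : ff ℓ (j + v ^ 2) ≤ ff ℓ j := ff_anti hℓ hj0 (by nlinarith [sq_nonneg v])
  unfold DJ
  have h6 : v * ff ℓ (j + u ^ 2) ≤ u * ff ℓ (j + u ^ 2) := by gcongr
  have h7 : v * (ff ℓ (j + v ^ 2) * (1 - (u - v) * θ)) ≤ v * ff ℓ (j + u ^ 2) :=
    mul_le_mul_of_nonneg_left h2 hv
  have h8 : v * (ff ℓ (j + v ^ 2) * ((u - v) * θ)) ≤ (ℓ + 1) * ((u - v) * ff ℓ j) := by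
    have h9 : 0 ≤ ff ℓ j := (ff_pos ℓ hj0).le
    calc v * (ff ℓ (j + v ^ 2) * ((u - v) * θ)) ≤ 1 * (ff ℓ j * ((u - v) * (ℓ + 1))) := by
          gcongr
          linarith
      _ = _ := by ring
  nlinarith

end Pool.Agent.Helper70.CU
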