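import Pool.Agent.Helper70.CU.Big1

/-!
# The exact threshold for large `n`: the small terms
-/

set_option autoImplicit false

open Set
open Pool.Agent.Helper70.MM (ff sl)

namespace Pool.Agent.Helper70.CU

/-- `C(N,j) ≤ (N/j)^j e^j` -/
lemma choose_le_exp {N j : ℕ} (hN : 0 < N) (hj : 0 < j) :
    (N.choose j : ℝ) ≤ Real.exp (j * (1 + Real.log (N / j))) := by
  have hjr : (0 : ℝ) < j := by exact_mod_cast hj
  have hNr : (0 : ℝ) < N := by exact_mod_cast hN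
  have h1 : (N.choose j : ℝ) ≤ (N : ℝ) ^ j / (j.factorial : ℝ) := Nat.choose_le_pow_div j N
  have h2 : (j : ℝ) ^ j / (j.factorial : ℝ) ≤ Real.exp j :=
    Real.pow_div_factorial_le_exp (j : ℝ) hjr.le j
  have h3 : (N : ℝ) ^ j / (j.factorial : ℝ) = ((N : ℝ) / j) ^ j * ((j : ℝ) ^ j / (j.factorial : ℝ)) := by
    rw [div_pow]
    field_simp
  have h4 : ((N : ℝ) / j) ^ j = Real.exp (j * Real.log (N / j)) := by
    rw [Real.exp_nat_mul, Real.exp_log (by positivity)]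
  rw [h3, h4] at h1
  refine h1.trans ?_
  rw [mul_add, mul_one, Real.exp_add, mul_comm (Real.exp (j : ℝ))]
  exact mul_le_mul_of_nonneg_left h2 (Real.exp_pos _).le

/-- BAD -/
lemma bad {N j : ℕ} {ℓ : ℝ} (hN : 0 < N) (hj : 0 < j) (hℓ : 1 ≤ ℓ) (h15 : 15 * (j : ℝ) ≤ ℓ ^ 2)
    (hNl : 1.1025 * (N : ℝ) ≤ ℓ ^ 2) : (N.choose j : ℝ) * ff ℓ j ≤ Real.exp (-(ℓ / 20)) := by
  have hjr : (1 : ℝ) ≤ j := by exact_mod_cast hj
  have hj0 : (0 : ℝ) < j := by linarith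
  have hNr : (0 : ℝ) < N := by exact_mod_cast hN
  have hℓ0 : 0 < ℓ := by linarith
  have hs : 1 ≤ Real.sqrt j := Real.one_le_sqrt.2 hjr
  have hss : Real.sqrt j ^ 2 = j := Real.sq_sqrt hj0.le
  have h1 := choose_le_exp hN hj
  have h2 : ff ℓ j ≤ Real.exp (-(ℓ * Real.sqrt j)) := by
    unfold ff
    exact div_le_self (Real.exp_pos _).le hs
  have h3 : (N.choose j : ℝ) * ff ℓ j ≤
      Real.exp (j * (1 + Real.log (N / j))) * Real.exp (-(ℓ * Real.sqrt j)) :=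
    mul_le_mul h1 h2 (ff_pos ℓ hj0).le (Real.exp_pos _).le
  refine h3.trans ?_
  rw [← Real.exp_add]
  apply Real.exp_le_exp.2
  -- `x = √j/ℓ`, `x₀ = 1/√15`
  have hs15 : 0 < Real.sqrt 15 := Real.sqrt_pos.2 (by norm_num)
  have hs15' : Real.sqrt 15 ^ 2 = 15 := Real.sq_sqrt (by norm_num)
  have hxx : Real.sqrt 15 * Real.sqrt j ≤ ℓ := by
    rw [← Real.sqrt_mul (by norm_num : (0:ℝ) ≤ 15)]
    exact (Real.sqrt_le_left hℓ0.le).2 h15
  -- log (N/j) ≤ log (13.6055) + 2 (ℓ/(√15 √j) - 1)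
  have h4 : Real.log (N / j) ≤ Real.log (15 / 1.1025) + 2 * (ℓ / (Real.sqrt 15 * Real.sqrt j) - 1) := by
    have h5 : (N : ℝ) / j ≤ (15 / 1.1025) * (ℓ / (Real.sqrt 15 * Real.sqrt j)) ^ 2 := by
      rw [div_pow, mul_pow, hs15', hss, div_le_iff₀ hj0]
      have : 15 / 1.1025 * (ℓ ^ 2 / (15 * j)) * j = ℓ ^ 2 / 1.1025 := by
        field_simp
      rw [this, le_div_iff₀ (by norm_num)]
      linarith
    have h6 : 0 < ℓ / (Real.sqrt 15 * Real.sqrt j) := by positivity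
    calc Real.log (N / j) ≤ Real.log ((15 / 1.1025) * (ℓ / (Real.sqrt 15 * Real.sqrt j)) ^ 2) :=
          Real.log_le_log (by positivity) h5
      _ = Real.log (15 / 1.1025) + 2 * Real.log (ℓ / (Real.sqrt 15 * Real.sqrt j)) := by
          rw [Real.log_mul (by norm_num) (by positivity), Real.log_pow]
          norm_num
      _ ≤ _ := by
          have := Real.log_le_sub_one_of_pos h6
          linarith
  have h7 : Real.log (15 / 1.1025) ≤ 2.623 := by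
    have a1 : (15 : ℝ) / 1.1025 = 2 ^ 4 * (15 / 1.1025 / 16) := by norm_num
    rw [a1, Real.log_mul (by norm_num) (by norm_num), Real.log_pow]
    have a2 := Real.log_le_sub_one_of_pos (show (0 : ℝ) < 15 / 1.1025 / 16 by norm_num)
    have a3 : Real.log 2 < 0.6931471808 := Real.log_two_lt_d9
    have a4 : (15 : ℝ) / 1.1025 / 16 - 1 ≤ -0.1496 := by norm_num
    push_cast
    linarith
  have h8 : (3.872 : ℝ) ≤ Real.sqrt 15 := Real.le_sqrt_of_sq_le (by norm_num)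
  -- main
  have h9 : (j : ℝ) * (1 + Real.log (N / j)) ≤
      j * 1.623 + 2 * (Real.sqrt j * ℓ / Real.sqrt 15) := by
    have b1 : (j : ℝ) * (ℓ / (Real.sqrt 15 * Real.sqrt j)) = Real.sqrt j * ℓ / Real.sqrt 15 := by
      nth_rewrite 1 [← hss]
      field_simp
    have b2 : (j : ℝ) * (1 + Real.log (N / j)) ≤
        j * (1 + (2.623 + 2 * (ℓ / (Real.sqrt 15 * Real.sqrt j) - 1))) := by
      refine mul_le_mul_of_nonneg_left ?_ hj0.le
      linarith
    have b3 : (j : ℝ) * (1 + (2.623 + 2 * (ℓ / (Real.sqrt 15 * Real.sqrt j) - 1))) =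
        j * 1.623 + 2 * ((j : ℝ) * (ℓ / (Real.sqrt 15 * Real.sqrt j))) := by ring
    rw [b3, b1] at b2
    exact b2
  have h10 : (j : ℝ) ≤ Real.sqrt j * ℓ / Real.sqrt 15 := by
    rw [le_div_iff₀ hs15]
    nlinarith
  have h11 : Real.sqrt j * ℓ / Real.sqrt 15 ≤ Real.sqrt j * ℓ / 3.872 := by
    gcongr
  have h12 : ℓ ≤ Real.sqrt j * ℓ := by nlinarith
  have h13 : Real.sqrt j * ℓ / 3.872 * 3.623 ≤ 0.95 * (Real.sqrt j * ℓ) := by
    have : 0 ≤ Real.sqrt j * ℓ := by positivity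
    rw [div_mul_eq_mul_div, div_le_iff₀ (by norm_num)]
    nlinarith
  nlinarith

end Pool.Agent.Helper70.CU
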