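import Pool.Agent.Helper70.CU.Big2

/-!
# The exact threshold for large `n`: the derivative along the edge
-/

set_option autoImplicit false

open Set
open Pool.Agent.Helper70.MM (ff sl)

namespace Pool.Agent.Helper70.CU

/-- `S = ∑_{j ≥ 1} C(N,j) f(j+1)` -/
noncomputable def SS (N : ℕ) (ℓ : ℝ) : ℝ :=
  ∑ j ∈ Finset.range N, (N.choose (j + 1) : ℝ) * ff ℓ ((j : ℝ) + 1 + 1)

/-- `E`, the sum over small `j` -/
noncomputable def EE (N : ℕ) (ℓ : ℝ) : ℝ :=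
  ∑ j ∈ Finset.range N, (N.choose (j + 1) : ℝ) *
    (if 15 * ((j : ℝ) + 1) ≤ ℓ ^ 2 then ff ℓ ((j : ℝ) + 1) else 0)

lemma sl_eq (N : ℕ) (ℓ : ℝ) : sl (N + 1) ℓ = Real.exp (-ℓ) + SS N ℓ := by
  unfold sl SS
  rw [Finset.sum_range_succ']
  simp only [Nat.add_sub_cancel]
  rw [add_comm]
  congr 1
  · simp
  · refine Finset.sum_congr rfl fun j _ => ?_
    unfold ff
    push_cast
    rw [mul_comm ℓ]

lemma ps1_eq {ℓ a w : ℝ} (hℓ : 0 < ℓ) (h : 0 < a + w ^ 2) :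
    ps1 (a * ℓ ^ 2) (ℓ * w) = -(w * ff ℓ (a + w ^ 2)) := by
  unfold ps1 ff
  have e : a * ℓ ^ 2 + (ℓ * w) ^ 2 = ℓ ^ 2 * (a + w ^ 2) := by ring
  rw [e, Real.sqrt_mul (by positivity), Real.sqrt_sq hℓ.le]
  have hs : 0 < Real.sqrt (a + w ^ 2) := Real.sqrt_pos.2 h
  field_simp

lemma FF1_eq {N : ℕ} {ℓ v : ℝ} (hℓ : 0 < ℓ) (hv : 0 < v) (hv1 : v < 1) :
    FF1 (N + 1) ℓ (ℓ * v) = (Real.exp (-(ℓ * (1 - v))) - Real.exp (-(ℓ * v))) +
      ∑ j ∈ Finset.range N, (N.choose (j + 1) : ℝ) * DJ ℓ ((j : ℝ) + 1) (1 - v) v := by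
  unfold FF1
  have hu : 0 < 1 - v := by linarith
  rw [Finset.sum_range_succ']
  simp only [Nat.add_sub_cancel]
  rw [add_comm]
  have e1 : ℓ - ℓ * v = ℓ * (1 - v) := by ring
  congr 1
  · rw [e1, ps1_eq hℓ (by simp; positivity), ps1_eq hℓ (by simp; positivity)]
    have h1 : ∀ w : ℝ, 0 < w → w * ff ℓ (((0 : ℕ) : ℝ) + w ^ 2) = Real.exp (-(ℓ * w)) := by
      intro w hw
      unfold ff
      rw [Nat.cast_zero, zero_add, Real.sqrt_sq hw.le]
      field_simp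
    rw [h1 v hv, h1 (1 - v) hu]
    simp
    ring
  · refine Finset.sum_congr rfl fun j _ => ?_
    rw [e1, ps1_eq hℓ (by positivity), ps1_eq hℓ (by positivity)]
    unfold DJ
    push_cast
    ring

lemma numE {ℓ : ℝ} (hℓ : 500 ≤ ℓ) : 200 * (ℓ ^ 2 * (ℓ + 1)) ≤ Real.exp (ℓ / 20) := by
  set h := ℓ / 20 - 25 with hh
  have h0 : 0 ≤ h := by rw [hh]; linarith
  have e1 : ℓ = 20 * (25 + h) := by rw [hh]; ring
  have e2 : ℓ / 20 = (25 : ℕ) * (1 : ℝ) + h := by rw [hh]; push_cast; ring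
  rw [e2, Real.exp_add, Real.exp_nat_mul]
  have a1 : (2.7 : ℝ) ≤ Real.exp 1 := by
    have := Real.exp_one_gt_d9
    linarith
  have a2 : (6.08e10 : ℝ) ≤ Real.exp 1 ^ 25 := by
    calc (6.08e10 : ℝ) ≤ 2.7 ^ 25 := by norm_num
      _ ≤ Real.exp 1 ^ 25 := by gcongr
  have a3 := Real.quadratic_le_exp_of_nonneg h0
  have a4 : h ^ 3 / 6 ≤ Real.exp h := by
    have := Real.pow_div_factorial_le_exp h h0 3
    have e : ((3 : ℕ).factorial : ℝ) = 6 := by norm_num [Nat.factorial]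
    rwa [e] at this
  have a5 : (3.04e10 : ℝ) * (1 + h + h ^ 2 / 2 + h ^ 3 / 6) ≤ Real.exp 1 ^ 25 * Real.exp h := by
    have : (3.04e10 : ℝ) * (1 + h + h ^ 2 / 2 + h ^ 3 / 6) ≤ 6.08e10 * Real.exp h := by
      have : (1 + h + h ^ 2 / 2 + h ^ 3 / 6) ≤ 2 * Real.exp h := by linarith
      linarith
    refine this.trans ?_
    gcongr
  refine le_trans ?_ a5
  rw [e1]
  nlinarith [pow_nonneg h0 2, pow_nonneg h0 3]

lemma EE_nonneg (N : ℕ) (ℓ : ℝ) : 0 ≤ EE N ℓ := by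
  unfold EE
  refine Finset.sum_nonneg fun j _ => mul_nonneg (Nat.cast_nonneg _) ?_
  split_ifs
  · exact (ff_pos ℓ (by positivity)).le
  · exact le_rfl

lemma EE_le {N : ℕ} {ℓ : ℝ} (hℓ : 1 ≤ ℓ) (hNl : 1.1025 * (N : ℝ) ≤ ℓ ^ 2) :
    EE N ℓ ≤ ℓ ^ 2 * Real.exp (-(ℓ / 20)) := by
  have h1 : EE N ℓ ≤ ∑ j ∈ Finset.range N, Real.exp (-(ℓ / 20)) := by
    unfold EE
    refine Finset.sum_le_sum fun j hj => ?_
    have hjN := Finset.mem_range.1 hj
    split_ifs with h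
    · have := bad (N := N) (j := j + 1) (ℓ := ℓ) (by omega) (by omega) hℓ (by push_cast; exact h) hNl
      push_cast at this
      exact this
    · rw [mul_zero]; exact (Real.exp_pos _).le
  rw [Finset.sum_const, Finset.card_range, nsmul_eq_mul] at h1
  refine h1.trans ?_
  gcongr
  have : (0 : ℝ) ≤ N := Nat.cast_nonneg _
  linarith

lemma theta_le {ℓ j : ℝ} (hℓ : 500 ≤ ℓ) (hj : ¬ 15 * j ≤ ℓ ^ 2) :
    0 < j ∧ ℓ / (2 * Real.sqrt j) + 1 / (2 * j) ≤ 1.94 := by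
  have h1 : ℓ ^ 2 < 15 * j := not_le.1 hj
  have hj0 : 16000 < j := by nlinarith
  have hj00 : 0 < j := by linarith
  refine ⟨hj00, ?_⟩
  have hs : 0 < Real.sqrt j := Real.sqrt_pos.2 hj00
  have hss : Real.sqrt j ^ 2 = j := Real.sq_sqrt hj00.le
  have h2 : ℓ ≤ 3.873 * Real.sqrt j := by
    by_contra hcon
    have h3 := not_le.1 hcon
    nlinarith [mul_pos hs hs]
  have h3 : ℓ / (2 * Real.sqrt j) ≤ 1.9365 := by
    rw [div_le_iff₀ (by positivity)]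
    linarith
  have h4 : 1 / (2 * j) ≤ 0.001 := by
    rw [div_le_iff₀ (by positivity)]
    linarith
  linarith

theorem T_nonneg {N : ℕ} {ℓ v : ℝ} (hℓ : 500 ≤ ℓ) (hNl : 1.1025 * (N : ℝ) ≤ ℓ ^ 2)
    (hsl : 1 ≤ sl (N + 1) ℓ) (hv : 0 < v) (hv2 : v ≤ 1 / 2) : 0 ≤ FF1 (N + 1) ℓ (ℓ * v) := by
  have hℓ0 : 0 < ℓ := by linarith
  rw [FF1_eq hℓ0 hv (by linarith)]
  rw [sl_eq] at hsl
  set S := SS N ℓ with hS
  set E := EE N ℓ with hE
  have hE0 : 0 ≤ E := EE_nonneg N ℓ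
  have hE1 : E ≤ ℓ ^ 2 * Real.exp (-(ℓ / 20)) := EE_le (by linarith) hNl
  have hnum := numE hℓ
  have hX : ℓ ^ 2 * (ℓ + 1) * Real.exp (-(ℓ / 20)) ≤ 1 / 200 := by
    rw [Real.exp_neg, ← div_eq_mul_inv, div_le_iff₀ (Real.exp_pos _)]
    linarith
  have hep : 0 < Real.exp (-(ℓ / 20)) := Real.exp_pos _
  -- `(ℓ+2) E ≤ 0.006`
  have hE2 : (ℓ + 2) * E + ℓ * Real.exp (-(ℓ / 20)) ≤ 0.01 := by
    have h1 : (ℓ + 2) * E ≤ (ℓ + 2) * (ℓ ^ 2 * Real.exp (-(ℓ / 20))) := by gcongr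
    have h2 : (ℓ + 2) * (ℓ ^ 2 * Real.exp (-(ℓ / 20))) + ℓ * Real.exp (-(ℓ / 20)) ≤
        2 * (ℓ ^ 2 * (ℓ + 1) * Real.exp (-(ℓ / 20))) := by
      have h3 : (ℓ + 2) * ℓ ^ 2 + ℓ ≤ 2 * (ℓ ^ 2 * (ℓ + 1)) := by nlinarith
      have h4 := mul_le_mul_of_nonneg_right h3 hep.le
      linarith
    linarith
  have hexpℓ : Real.exp (-ℓ) ≤ Real.exp (-(ℓ / 20)) := Real.exp_le_exp.2 (by linarith)
  have hsmall : Real.exp (-(ℓ / 20)) ≤ 0.01 := by
    have : Real.exp (-(ℓ / 20)) ≤ ℓ * Real.exp (-(ℓ / 20)) := by nlinarith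
    have : 0 ≤ (ℓ + 2) * E := by positivity
    linarith
  have hS1 : 1 - Real.exp (-ℓ) ≤ S := by linarith
  have hS99 : 0.99 ≤ S := by linarith
  have hE3 : E ≤ 0.01 := by
    have h1 : E ≤ (ℓ + 2) * E := by nlinarith
    have h2 : 0 ≤ ℓ * Real.exp (-(ℓ / 20)) := by positivity
    linarith
  set u := 1 - v with hu
  have hu0 : 0 < u := by rw [hu]; linarith
  have huv : u + v = 1 := by rw [hu]; ring
  have hvu : v ≤ u := by rw [hu]; linarith
  have hu1 : u ≤ 1 := by rw [hu]; linarith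
  rcases le_total v (1 / 20) with hc | hc
  · -- case 1
    have h1 : u * S - v * (8 * S + E) ≤
        ∑ j ∈ Finset.range N, (N.choose (j + 1) : ℝ) * DJ ℓ ((j : ℝ) + 1) u v := by
      rw [hS, hE]
      unfold SS EE
      rw [Finset.mul_sum, Finset.mul_sum, ← Finset.sum_add_distrib, Finset.mul_sum,
        ← Finset.sum_sub_distrib]
      refine Finset.sum_le_sum fun j _ => ?_
      have hj0 : (0 : ℝ) < (j : ℝ) + 1 := by positivity
      have g1 := DJ_all1 (ℓ := ℓ) (u := u) (v := v) hℓ0.le hj0 hv.le hu0.le hu1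
      have g2 : ff ℓ ((j : ℝ) + 1) ≤ 8 * ff ℓ ((j : ℝ) + 1 + 1) +
          (if 15 * ((j : ℝ) + 1) ≤ ℓ ^ 2 then ff ℓ ((j : ℝ) + 1) else 0) := by
        split_ifs with h
        · have := ff_pos ℓ (show (0 : ℝ) < (j : ℝ) + 1 + 1 by positivity)
          linarith
        · obtain ⟨k1, k2⟩ := theta_le hℓ h
          have := ff_ratio8 hℓ0.le k1 k2
          linarith
      have hC : (0 : ℝ) ≤ (N.choose (j + 1) : ℝ) := Nat.cast_nonneg _
      have g3 : u * ff ℓ ((j : ℝ) + 1 + 1) - v * (8 * ff ℓ ((j : ℝ) + 1 + 1) +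
          (if 15 * ((j : ℝ) + 1) ≤ ℓ ^ 2 then ff ℓ ((j : ℝ) + 1) else 0)) ≤
          DJ ℓ ((j : ℝ) + 1) u v := by
        have := mul_le_mul_of_nonneg_left g2 hv.le
        linarith
      have g4 := mul_le_mul_of_nonneg_left g3 hC
      linarith
    have h2 : Real.exp (-(ℓ * v)) - Real.exp (-(ℓ * u)) ≤ Real.exp (-(ℓ * v)) * S := by
      have g1 : Real.exp (-(ℓ * v)) * Real.exp (-ℓ) ≤ Real.exp (-(ℓ * u)) := by
        rw [← Real.exp_add]
        apply Real.exp_le_exp.2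
        nlinarith
      have g2 := mul_le_mul_of_nonneg_left hS1 (Real.exp_pos (-(ℓ * v))).le
      linarith
    have h3 : Real.exp (-(ℓ * v)) ≤ 1 - 10 * v := by
      have g1 := Real.add_one_le_exp (ℓ * v)
      rw [Real.exp_neg, inv_le_comm₀ (Real.exp_pos _) (by linarith)]
      refine le_trans ?_ g1
      rw [inv_le_iff_one_le_mul₀ (by linarith)]
      nlinarith [mul_pos hℓ0 hv]
    have h4 : Real.exp (-(ℓ * v)) * S ≤ (1 - 10 * v) * S :=
      mul_le_mul_of_nonneg_right h3 (by linarith)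
    have h5 : (1 - 10 * v) * S ≤ u * S - v * (8 * S + E) := by
      rw [hu]
      nlinarith
    linarith
  · -- case 2
    have hy0 : 0 ≤ u - v := by linarith
    have h1 : (u - v) * (0.014 * S - (ℓ + 2) * E) ≤
        ∑ j ∈ Finset.range N, (N.choose (j + 1) : ℝ) * DJ ℓ ((j : ℝ) + 1) u v := by
      rw [hS, hE]
      unfold SS EE
      rw [Finset.mul_sum, Finset.mul_sum, ← Finset.sum_sub_distrib, Finset.mul_sum]
      refine Finset.sum_le_sum fun j _ => ?_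
      have hj0 : (0 : ℝ) < (j : ℝ) + 1 := by positivity
      have hC : (0 : ℝ) ≤ (N.choose (j + 1) : ℝ) := Nat.cast_nonneg _
      have g3 : (u - v) * (0.014 * ff ℓ ((j : ℝ) + 1 + 1) - (ℓ + 2) *
          (if 15 * ((j : ℝ) + 1) ≤ ℓ ^ 2 then ff ℓ ((j : ℝ) + 1) else 0)) ≤
          DJ ℓ ((j : ℝ) + 1) u v := by
        split_ifs with h
        · have k1 := DJ_all2 (ℓ := ℓ) (j := (j : ℝ) + 1) hℓ0.le
            (by have : (0 : ℝ) ≤ (j : ℝ) := Nat.cast_nonneg _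
                linarith) hv.le hvu huv
          have k2 : ff ℓ ((j : ℝ) + 1 + 1) ≤ ff ℓ ((j : ℝ) + 1) :=
            ff_anti hℓ0.le hj0 (by linarith)
          have k3 := ff_pos ℓ hj0
          have k4 := mul_le_mul_of_nonneg_left k2 hy0
          have k5 := mul_nonneg hy0 k3.le
          nlinarith
        · obtain ⟨k1, k2⟩ := theta_le hℓ h
          have := DJ_good hℓ0.le k1 k2 hv.le hvu huv
          linarith
      have g4 := mul_le_mul_of_nonneg_left g3 hC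
      linarith
    have h2 : Real.exp (-(ℓ * v)) - Real.exp (-(ℓ * u)) ≤
        (u - v) * (ℓ * Real.exp (-(ℓ / 20))) := by
      have g1 : Real.exp (-(ℓ * u)) = Real.exp (-(ℓ * v)) * Real.exp (-(ℓ * (u - v))) := by
        rw [← Real.exp_add]; congr 1; ring
      have g2 := Real.add_one_le_exp (-(ℓ * (u - v)))
      have g3 : Real.exp (-(ℓ * v)) ≤ Real.exp (-(ℓ / 20)) := by
        apply Real.exp_le_exp.2
        nlinarith
      have g4 : Real.exp (-(ℓ * v)) - Real.exp (-(ℓ * u)) ≤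
          Real.exp (-(ℓ * v)) * (ℓ * (u - v)) := by
        rw [g1]
        nlinarith [Real.exp_pos (-(ℓ * v))]
      have g5 : Real.exp (-(ℓ * v)) * (ℓ * (u - v)) ≤ Real.exp (-(ℓ / 20)) * (ℓ * (u - v)) := by
        gcongr
      linarith
    have h3 : 0 ≤ (u - v) * (0.014 * S - (ℓ + 2) * E - ℓ * Real.exp (-(ℓ / 20))) := by
      refine mul_nonneg hy0 ?_
      linarith
    nlinarith

/-- the edge inequality when `N ≤ ℓ²/1.1025` -/
theorem edge_big {N : ℕ} {ℓ : ℝ} (hℓ : 500 ≤ ℓ) (hNl : 1.1025 * (N : ℝ) ≤ ℓ ^ 2)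
    (hsl : 1 ≤ sl (N + 1) ℓ) : ∀ s, 0 ≤ s → s ≤ ℓ → FF (N + 1) ℓ 0 ≤ FF (N + 1) ℓ s := by
  have hℓ0 : 0 < ℓ := by linarith
  have hmono : MonotoneOn (FF (N + 1) ℓ) (Icc 0 (ℓ / 2)) := by
    apply monotoneOn_of_deriv_nonneg (convex_Icc 0 (ℓ / 2)) (FF_cont _ _).continuousOn
    · intro x hx
      rw [interior_Icc] at hx
      exact (FF_der hx.1 (by linarith [hx.2])).differentiableAt.differentiableWithinAt
    · intro x hx
      rw [interior_Icc] at hx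
      rw [(FF_der hx.1 (by linarith [hx.2])).deriv]
      have e : x = ℓ * (x / ℓ) := by field_simp
      rw [e]
      refine T_nonneg hℓ hNl hsl (div_pos hx.1 hℓ0) ?_
      rw [div_le_iff₀ hℓ0]
      linarith [hx.2]
  have hhalf : ∀ s, 0 ≤ s → s ≤ ℓ / 2 → FF (N + 1) ℓ 0 ≤ FF (N + 1) ℓ s := fun s h1 h2 =>
    hmono ⟨le_rfl, by linarith⟩ ⟨h1, h2⟩ h1
  intro s h1 h2
  rcases le_total s (ℓ / 2) with h | h
  · exact hhalf s h1 h
  · have e : FF (N + 1) ℓ s = FF (N + 1) ℓ (ℓ - s) := by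
      unfold FF
      refine Finset.sum_congr rfl fun m _ => ?_
      rw [sub_sub_cancel, add_comm (ps ((m : ℝ) * ℓ ^ 2) s)]
    rw [e]
    exact hhalf _ (by linarith) (by linarith)

end Pool.Agent.Helper70.CU
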