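import Pool.Agent.Helper70.CU.Big3
import Pool.Agent.Helper70.CU.All
import Pool.Agent.Helper3.CU.LOWER

/-!
# The exact threshold for large `n`: assembly
-/

set_option autoImplicit false

open MeasureTheory Set Metric
open scoped ENNReal Topology
open Pool.Agent.Results.MP_91ee6f_gt
open Pool.Agent.Helper70.MM

namespace Pool.Agent.Helper70.CU

/-- MON -/
def MON : Prop := ∀ {n : ℕ}, 1 ≤ n → ∀ {ℓ : ℝ}, 0 < ℓ →
  (∀ s, 0 ≤ s → s ≤ ℓ → FF n ℓ 0 ≤ FF n ℓ s) →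
  ∀ s, 0 ≤ s → s ≤ ℓ → FF (n + 1) ℓ 0 ≤ FF (n + 1) ℓ s

theorem mon_le (hM : MON) {m n : ℕ} (hm : 1 ≤ m) (hmn : m ≤ n) {ℓ : ℝ} (hℓ : 0 < ℓ)
    (h : ∀ s, 0 ≤ s → s ≤ ℓ → FF m ℓ 0 ≤ FF m ℓ s) :
    ∀ s, 0 ≤ s → s ≤ ℓ → FF n ℓ 0 ≤ FF n ℓ s := by
  induction n, hmn using Nat.le_induction with
  | base => exact h
  | succ n hn ih => exact hM (by omega) hℓ ih

theorem edge_500 (hM : MON) {n : ℕ} {ℓ : ℝ} (hn : 1 ≤ n) (hℓ : 500 ≤ ℓ) (hsl : 1 ≤ sl n ℓ) :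
    ∀ s, 0 ≤ s → s ≤ ℓ → FF n ℓ 0 ≤ FF n ℓ s := by
  classical
  have hℓ0 : 0 < ℓ := by linarith
  have hex : ∃ m : ℕ, 2 ≤ m ∧ 1 ≤ sl m ℓ := by
    refine ⟨n, ?_, hsl⟩
    by_contra hcon
    have h1 : n = 1 := by omega
    rw [h1] at hsl
    unfold sl at hsl
    simp at hsl
    linarith
  obtain ⟨hm2, hm1⟩ := Nat.find_spec hex
  set m := Nat.find hex with hm
  have hmn : m ≤ n := by
    apply Nat.find_min' hex
    refine ⟨?_, hsl⟩
    by_contra hcon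
    have h1 : n = 1 := by omega
    rw [h1] at hsl
    unfold sl at hsl
    simp at hsl
    linarith
  -- `ℓ < 2√m`
  have hO : ℓ < 2 * Real.sqrt m := by
    by_contra hcon
    exact absurd hm1 (not_le.2 (Pool.Agent.Helper79.CU.order m ℓ hm2 (not_lt.1 hcon)))
  have hmr : (62500 : ℝ) < m := by
    have h1 : Real.sqrt m ^ 2 = m := Real.sq_sqrt (Nat.cast_nonneg m)
    have h2 : 250 < Real.sqrt m := by linarith
    nlinarith
  have hm62 : 62500 < m := by exact_mod_cast hmr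
  have hlow : 1.1025 * ((m - 1 : ℕ) : ℝ) ≤ ℓ ^ 2 := by
    by_contra hcon
    have h1 := not_le.1 hcon
    have hlt : ¬ (2 ≤ m - 1 ∧ 1 ≤ sl (m - 1) ℓ) := Nat.find_min hex (by omega)
    apply hlt
    refine ⟨by omega, ?_⟩
    refine Pool.Agent.Helper3.CU.lower (m - 1) ℓ (by omega) hℓ0 ?_
    nlinarith
  have hm' : m - 1 + 1 = m := by omega
  have hedge := edge_big (N := m - 1) hℓ hlow (by rw [hm']; exact hm1)
  rw [hm'] at hedge
  exact mon_le hM (by omega) hmn hℓ0 hedge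

/-- all `ℓ > 1` for `n ≥ 10^7` -/
theorem edge_all (hM : MON) {n : ℕ} {ℓ : ℝ} (hn : 10 ^ 7 ≤ n) (h1 : 1 < ℓ) (hsl : 1 ≤ sl n ℓ)
    (i : Fin n) (s : ℝ) (hs : 0 ≤ s) (hsl' : s ≤ ℓ) :
    PV n ℓ 0 ≤ PV n ℓ (EuclideanSpace.single i s) := by
  rcases le_total ℓ 500 with h | h
  · refine edge h1 ?_ i s hs hsl'
    have hnr : (10 ^ 7 : ℝ) ≤ n := by exact_mod_cast hn
    have : (3000 : ℝ) ≤ Real.sqrt n := Real.le_sqrt_of_sq_le (by nlinarith)
    linarith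
  · have h0 : (EuclideanSpace.single i (0 : ℝ) : En n) = 0 := by
      ext j
      rw [PiLp.single_apply]
      simp
    rw [← h0, PV_single (by omega), PV_single (by omega)]
    exact edge_500 hM (by omega) h hsl s hs hsl'

theorem cube_vertices3 (hM : MON) (n : ℕ) (hn : 2 ≤ n) (ℓ : ℝ) (hℓ : 0 < ℓ) :
    ∃ w : Measure (En n), IsTheMaximising (cube n ℓ) w ∧
      (w = vertUnif n ℓ → 1 ≤ vertSlope n ℓ) ∧
      (w = vertUnif n ℓ → ℓ < 2 * Real.sqrt n) ∧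
      (n ≤ 3 ∨ 10 ^ 7 ≤ n → 1 ≤ vertSlope n ℓ → w = vertUnif n ℓ) ∧
      (4 ≤ n → ℓ ≤ max 1 (Real.sqrt n / 6) → w = vertUnif n ℓ) ∧
      (w = vertUnif n ℓ → w.support = range (vert n ℓ) ∧
        MaxDiversity (cube n ℓ) (2 ^ n /
          ∑ k ∈ Finset.range (n + 1), (n.choose k : ℝ) * Real.exp (-(Real.sqrt k * ℓ)))) := by
  obtain ⟨w, hw, hw1, hw1', hw2, hw3, hw4⟩ := cube_vertices2 n hn ℓ hℓ
  refine ⟨w, hw, hw1, hw1', ?_, hw3, hw4⟩
  rintro (h3 | hbig) hsl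
  · exact hw2 h3 hsl
  · rcases le_or_gt ℓ 1 with h1 | h1
    · exact hw3 (by omega) (h1.trans (le_max_left _ _))
    · obtain ⟨hb1, hb2, hb3, hb4, hcomp, hne, hb5⟩ := fCBASE n ℓ hℓ
      have hmin := fFRED n ℓ (by omega) hℓ
        (fun i s hs hsl' => edge_all hM hbig h1 hsl i s hs hsl')
      have hPVpos : 0 < PV n ℓ 0 := by
        unfold PV
        exact Finset.sum_pos (fun T _ => Real.exp_pos _) Finset.univ_nonempty
      obtain ⟨μ, hμw, huniq⟩ := hw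
      obtain ⟨μ', g1, g2, g3, g4⟩ := fCRIT n (cube n ℓ) hcomp (vertUnif n ℓ) hb2
        (by
          have h6 : (vertUnif n ℓ).supportᶜ ⊇ (cube n ℓ)ᶜ := by
            rw [hb4]
            exact compl_subset_compl.2 hb5
          exact measure_mono_null h6 Measure.measure_compl_support)
        (PV n ℓ 0 / 2 ^ n) (by positivity)
        (fun x hx => by
          rw [hb3]
          have := hmin x hx
          gcongr)
        (fun x hx => by
          rw [hb4] at hx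
          obtain ⟨T, rfl⟩ := hx
          rw [hb3, (fCSYM n ℓ (by omega) hℓ).1 T])
      have hμ' : μ' = μ := (huniq μ').1 g2
      rw [hμw, ← hμ']
      exact g1

end Pool.Agent.Helper70.CU
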