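import Pool.Agent.Helper70.CU.All
import Pool.Agent.Helper65.MM.Fred

/-!
# Monotonicity in `n` of the edge inequality
-/

set_option autoImplicit false

open MeasureTheory Set Metric ProbabilityTheory
open scoped ENNReal Topology
open Pool.Agent.Results.MP_91ee6f_gt
open Pool.Agent.Helper70.MM
open Pool.Agent.Helper65.MM

namespace Pool.Agent.Helper70.CU

lemma FF_symm' (n : ℕ) (ℓ s : ℝ) : FF n ℓ (ℓ - s) = FF n ℓ s := by
  unfold FF
  refine Finset.sum_congr rfl fun m _ => ?_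
  rw [sub_sub_cancel, add_comm (ps ((m : ℝ) * ℓ ^ 2) (ℓ - s))]

lemma FF_int {n : ℕ} (ℓ s : ℝ) : FF (n + 1) ℓ s =
    ∫ t, th ℓ (la t) s * (th ℓ (la t) 0) ^ n ∂(gaussianReal 0 1) := by
  rw [← PV_single (n := n + 1) (by omega) ℓ s 0, PV_eq]
  unfold Pf
  refine integral_congr_ae (Filter.Eventually.of_forall fun t => ?_)
  simp only
  rw [Fin.prod_univ_succ]
  have h0 : (EuclideanSpace.single (0 : Fin (n + 1)) s : En (n + 1)) 0 = s := by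
    rw [PiLp.single_apply, if_pos rfl]
  have h : ∀ i : Fin n, th ℓ (la t) ((EuclideanSpace.single (0 : Fin (n + 1)) s : En (n + 1)) i.succ) =
      th ℓ (la t) 0 := by
    intro i
    rw [PiLp.single_apply, if_neg (Fin.succ_ne_zero i)]
  rw [h0, Finset.prod_congr rfl (fun i _ => h i), Finset.prod_const, Finset.card_univ,
    Fintype.card_fin]

lemma int_th (ℓ s : ℝ) (n : ℕ) :
    Integrable (fun t => th ℓ (la t) s * (th ℓ (la t) 0) ^ n) (gaussianReal 0 1) := by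
  refine Integrable.of_bound (C := 2 * 2 ^ n) ?_ (Filter.Eventually.of_forall fun t => ?_)
  · exact ((th_meas ℓ s).mul ((th_meas ℓ 0).pow_const n)).aestronglyMeasurable
  · have h0 : 0 ≤ th ℓ (la t) s * (th ℓ (la t) 0) ^ n :=
      mul_nonneg (th_pos _ _ _).le (pow_nonneg (th_pos _ _ _).le _)
    rw [Real.norm_of_nonneg h0]
    have h1 := th_le (ℓ := ℓ) (s := s) (la_nonneg t)
    have h2 := th_le (ℓ := ℓ) (s := 0) (la_nonneg t)
    have h3 := (th_pos ℓ (la t) 0).le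
    have h4 := (th_pos ℓ (la t) s).le
    gcongr

lemma th0_anti {ℓ lam lam' : ℝ} (h : lam ≤ lam') : th ℓ lam' 0 ≤ th ℓ lam 0 := by
  unfold th
  have h1 : Real.exp (-(lam' * (ℓ - 0) ^ 2)) ≤ Real.exp (-(lam * (ℓ - 0) ^ 2)) := by
    apply Real.exp_le_exp.2
    have : lam * (ℓ - 0) ^ 2 ≤ lam' * (ℓ - 0) ^ 2 := by gcongr
    linarith
  simp only [ne_eq, OfNat.ofNat_ne_zero, not_false_eq_true, zero_pow, mul_zero, neg_zero,
    Real.exp_zero] at *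
  linarith

theorem mon_half {n : ℕ} {ℓ s : ℝ} (hℓ : 0 < ℓ) (hs : 0 < s) (hs2 : s ≤ ℓ / 2)
    (h : FF (n + 1) ℓ 0 ≤ FF (n + 1) ℓ s) : FF (n + 1 + 1) ℓ 0 ≤ FF (n + 1 + 1) ℓ s := by
  obtain ⟨Λ, hΛ, h1, h2, _⟩ := fSCX ℓ s hℓ hs hs2
  rw [FF_int, FF_int, ← sub_nonneg, ← integral_sub (int_th ℓ s n) (int_th ℓ 0 n)] at h
  rw [FF_int, FF_int, ← sub_nonneg, ← integral_sub (int_th ℓ s (n + 1)) (int_th ℓ 0 (n + 1))]
  have hpt : ∀ t : ℝ, th ℓ Λ 0 * (th ℓ (la t) s * (th ℓ (la t) 0) ^ n -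
      th ℓ (la t) 0 * (th ℓ (la t) 0) ^ n) ≤
      th ℓ (la t) s * (th ℓ (la t) 0) ^ (n + 1) - th ℓ (la t) 0 * (th ℓ (la t) 0) ^ (n + 1) := by
    intro t
    have hp := th_pos ℓ (la t) 0
    have hpn : 0 ≤ (th ℓ (la t) 0) ^ n := pow_nonneg hp.le n
    rw [pow_succ]
    rcases le_total (la t) Λ with h' | h'
    · have h4 := h1 (la t) (la_nonneg t) h'
      rw [RR_eq, le_div_iff₀ hp, one_mul] at h4
      have h5 := th0_anti (ℓ := ℓ) h'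
      have h6 : 0 ≤ (th ℓ (la t) s - th ℓ (la t) 0) * (th ℓ (la t) 0) ^ n :=
        mul_nonneg (by linarith) hpn
      nlinarith [mul_le_mul_of_nonneg_right h5 h6]
    · have h4 := h2 (la t) h'
      rw [RR_eq, div_le_iff₀ hp, one_mul] at h4
      have h5 := th0_anti (ℓ := ℓ) h'
      have h6 : 0 ≤ (th ℓ (la t) 0 - th ℓ (la t) s) * (th ℓ (la t) 0) ^ n :=
        mul_nonneg (by linarith) hpn
      nlinarith [mul_le_mul_of_nonneg_right h5 h6]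
  have h7 := integral_mono (((int_th ℓ s n).sub (int_th ℓ 0 n)).const_mul (th ℓ Λ 0))
    ((int_th ℓ s (n + 1)).sub (int_th ℓ 0 (n + 1))) (fun t => hpt t)
  refine le_trans ?_ h7
  have h8 : ∫ t, th ℓ Λ 0 * (th ℓ (la t) s * (th ℓ (la t) 0) ^ n -
      th ℓ (la t) 0 * (th ℓ (la t) 0) ^ n) ∂(gaussianReal 0 1) = th ℓ Λ 0 *
      ∫ t, (th ℓ (la t) s * (th ℓ (la t) 0) ^ n -
      th ℓ (la t) 0 * (th ℓ (la t) 0) ^ n) ∂(gaussianReal 0 1) := integral_const_mul _ _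
  exact h8 ▸ mul_nonneg (th_pos _ _ _).le h

theorem mon {n : ℕ} (hn : 1 ≤ n) {ℓ : ℝ} (hℓ : 0 < ℓ)
    (h : ∀ s, 0 ≤ s → s ≤ ℓ → FF n ℓ 0 ≤ FF n ℓ s) :
    ∀ s, 0 ≤ s → s ≤ ℓ → FF (n + 1) ℓ 0 ≤ FF (n + 1) ℓ s := by
  obtain ⟨k, rfl⟩ : ∃ k, n = k + 1 := ⟨n - 1, by omega⟩
  have hhalf : ∀ s, 0 ≤ s → s ≤ ℓ / 2 → FF (k + 1 + 1) ℓ 0 ≤ FF (k + 1 + 1) ℓ s := by
    intro s h1 h2
    rcases h1.eq_or_lt with h3 | h3
    · rw [← h3]
    · exact mon_half hℓ h3 h2 (h s h1 (by linarith))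
  intro s h1 h2
  rcases le_total s (ℓ / 2) with h3 | h3
  · exact hhalf s h1 h3
  · rw [← FF_symm' _ ℓ s]
    exact hhalf _ (by linarith) (by linarith)

end Pool.Agent.Helper70.CU
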