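import Pool.Agent.Helper70.CU.Big4
import Pool.Agent.Helper70.CU.Mon

/-!
# The cube: final theorem
-/

set_option autoImplicit false

open MeasureTheory Set Metric
open scoped ENNReal Topology
open Pool.Agent.Results.MP_91ee6f_gt
open Pool.Agent.Helper70.MM

namespace Pool.Agent.Helper70.CU

theorem fMON : MON := fun hn _ hℓ h => mon hn hℓ h

/-- The edge inequality implies that the vertices carry the maximising measure. -/
theorem vert_of_edge {n : ℕ} (hn : 2 ≤ n) {ℓ : ℝ} (hℓ : 0 < ℓ)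
    (h : ∀ s, 0 ≤ s → s ≤ ℓ → FF n ℓ 0 ≤ FF n ℓ s) :
    IsTheMaximising (cube n ℓ) (vertUnif n ℓ) := by
  obtain ⟨w, hw, -⟩ := cube_vertices n hn ℓ hℓ
  obtain ⟨μ, hμw, huniq⟩ := hw
  obtain ⟨hb1, hb2, hb3, hb4, hcomp, hne, hb5⟩ := fCBASE n ℓ hℓ
  have hedge : ∀ (i : Fin n) (s : ℝ), 0 ≤ s → s ≤ ℓ →
      PV n ℓ 0 ≤ PV n ℓ (EuclideanSpace.single i s) := by
    intro i s hs hsl
    have h0 : (EuclideanSpace.single i (0 : ℝ) : En n) = 0 := by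
      ext j
      rw [PiLp.single_apply]
      simp
    rw [← h0, PV_single (by omega), PV_single (by omega)]
    exact h s hs hsl
  have hmin := fFRED n ℓ (by omega) hℓ hedge
  have hPVpos : 0 < PV n ℓ 0 := by
    unfold PV
    exact Finset.sum_pos (fun T _ => Real.exp_pos _) Finset.univ_nonempty
  obtain ⟨μ', g1, g2, g3, g4⟩ := fCRIT n (cube n ℓ) hcomp (vertUnif n ℓ) hb2
    (by
      have h6 : (vertUnif n ℓ).supportᶜ ⊇ (cube n ℓ)ᶜ := by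
        rw [hb4]
        exact compl_subset_compl.2 hb5
      exact measure_mono_null h6 Measure.measure_compl_support)
    (PV n ℓ 0 / 2 ^ n) (by positivity)
    (fun x hx => by
      rw [hb3]
      have := hmin x hx
      gcongr)
    (fun x hx => by
      rw [hb4] at hx
      obtain ⟨T, rfl⟩ := hx
      rw [hb3, (fCSYM n ℓ (by omega) hℓ).1 T])
  have hμ' : μ' = μ := (huniq μ').1 g2
  exact ⟨μ, by rw [← hμ', g1], huniq⟩

/-- The converse. -/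
theorem edge_of_vert {n : ℕ} (hn : 2 ≤ n) {ℓ : ℝ} (hℓ : 0 < ℓ)
    (h : IsTheMaximising (cube n ℓ) (vertUnif n ℓ)) :
    ∀ s, 0 ≤ s → s ≤ ℓ → FF n ℓ 0 ≤ FF n ℓ s := by
  obtain ⟨hb1, hb2, hb3, hb4, hcomp, hne, hb5⟩ := fCBASE n ℓ hℓ
  obtain ⟨μ, c, hc, hmax, hdiv, huniq, hk1, hk2⟩ := fEXMAX n (cube n ℓ) hcomp hne
  obtain ⟨μ', hμ'1, hμ'2⟩ := h
  have hμ : inEn μ = vertUnif n ℓ := by rw [hμ'1, (hμ'2 μ).1 hmax]
  have h0v : vert n ℓ ∅ = 0 := by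
    unfold vert
    ext i
    simp
  have hmin : ∀ x ∈ cube n ℓ, PV n ℓ 0 ≤ PV n ℓ x := by
    intro x hx
    have h1 := hk1 x hx
    have h2 := hk2 (vert n ℓ ∅) (by rw [hμ, hb4]; exact ⟨∅, rfl⟩)
    rw [hμ, hb3] at h1 h2
    rw [h0v] at h2
    rw [← h2] at h1
    have h3 : (0 : ℝ) < 2 ^ n := by positivity
    exact (div_le_div_iff_of_pos_right h3).1 h1
  intro s hs hsl
  have i : Fin n := ⟨0, by omega⟩
  have h0 : (EuclideanSpace.single i (0 : ℝ) : En n) = 0 := by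
    ext j
    rw [PiLp.single_apply]
    simp
  have h4 := hmin (EuclideanSpace.single i s) (fun k => by
    rw [PiLp.single_apply]
    split_ifs
    · exact ⟨hs, hsl⟩
    · exact ⟨le_rfl, hℓ.le⟩)
  rwa [← h0, PV_single (by omega), PV_single (by omega)] at h4

theorem cube_final (n : ℕ) (hn : 2 ≤ n) (ℓ : ℝ) (hℓ : 0 < ℓ) :
    ∃ w : Measure (En n), IsTheMaximising (cube n ℓ) w ∧
      (w = vertUnif n ℓ → 1 ≤ vertSlope n ℓ ∧ ℓ < 2 * Real.sqrt n) ∧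
      (n ≤ 3 ∨ 10 ^ 7 ≤ n → 1 ≤ vertSlope n ℓ → w = vertUnif n ℓ) ∧
      (4 ≤ n → ℓ ≤ max 1 (Real.sqrt n / 6) → w = vertUnif n ℓ) ∧
      (w = vertUnif n ℓ → (∀ m : ℕ, n ≤ m → IsTheMaximising (cube m ℓ) (vertUnif m ℓ)) ∧
        w.support = range (vert n ℓ) ∧
        MaxDiversity (cube n ℓ) (2 ^ n /
          ∑ k ∈ Finset.range (n + 1), (n.choose k : ℝ) * Real.exp (-(Real.sqrt k * ℓ)))) := by
  obtain ⟨w, hw, h1, h2, h3, h4, h5⟩ := cube_vertices3 fMON n hn ℓ hℓ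
  refine ⟨w, hw, fun h => ⟨h1 h, h2 h⟩, h3, h4, fun h => ⟨?_, h5 h⟩⟩
  intro m hm
  rw [h] at hw
  exact vert_of_edge (by omega) hℓ
    (mon_le fMON (by omega) hm hℓ (edge_of_vert hn hℓ hw))

end Pool.Agent.Helper70.CU
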