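import Pool.Agent.Helper70.CU.Der
import Pool.Agent.Helper62.MM.Cnec

/-!
# Concavity of the potential along the edges
-/

set_option autoImplicit false

open Set

namespace Pool.Agent.Helper70.CU

/-- the potential along an edge -/
noncomputable def FF (n : ℕ) (ℓ s : ℝ) : ℝ :=
  ∑ m ∈ Finset.range n, ((n - 1).choose m : ℝ) *
    (ps ((m : ℝ) * ℓ ^ 2) s + ps ((m : ℝ) * ℓ ^ 2) (ℓ - s))

noncomputable def FF1 (n : ℕ) (ℓ s : ℝ) : ℝ :=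
  ∑ m ∈ Finset.range n, ((n - 1).choose m : ℝ) *
    (ps1 ((m : ℝ) * ℓ ^ 2) s - ps1 ((m : ℝ) * ℓ ^ 2) (ℓ - s))

noncomputable def FF2 (n : ℕ) (ℓ s : ℝ) : ℝ :=
  ∑ m ∈ Finset.range n, ((n - 1).choose m : ℝ) *
    (ps2 ((m : ℝ) * ℓ ^ 2) s + ps2 ((m : ℝ) * ℓ ^ 2) (ℓ - s))

lemma FF_der {n : ℕ} {ℓ s : ℝ} (hs : 0 < s) (hsl : s < ℓ) : HasDerivAt (FF n ℓ) (FF1 n ℓ s) s := by
  unfold FF FF1
  refine HasDerivAt.fun_sum fun m _ => ?_
  have hm : (0 : ℝ) ≤ (m : ℝ) * ℓ ^ 2 := by positivity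
  have h1 : HasDerivAt (ps ((m : ℝ) * ℓ ^ 2)) (ps1 ((m : ℝ) * ℓ ^ 2) s) s :=
    ps_der (by positivity)
  have h2 : HasDerivAt (fun s => ps ((m : ℝ) * ℓ ^ 2) (ℓ - s))
      (-(ps1 ((m : ℝ) * ℓ ^ 2) (ℓ - s))) s := by
    have h3 : HasDerivAt (ps ((m : ℝ) * ℓ ^ 2)) (ps1 ((m : ℝ) * ℓ ^ 2) (ℓ - s)) (ℓ - s) :=
      ps_der (by have : 0 < ℓ - s := by linarith
                 positivity)
    have h4 : HasDerivAt (fun s => ℓ - s) (-1 : ℝ) s := by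
      simpa using (hasDerivAt_id s).const_sub ℓ
    have h5 := HasDerivAt.comp s h3 h4
    rw [mul_neg_one] at h5
    exact h5
  rw [sub_eq_add_neg]
  exact (h1.add h2).const_mul _

lemma FF1_der {n : ℕ} {ℓ s : ℝ} (hs : 0 < s) (hsl : s < ℓ) :
    HasDerivAt (FF1 n ℓ) (FF2 n ℓ s) s := by
  unfold FF1 FF2
  refine HasDerivAt.fun_sum fun m _ => ?_
  have hm : (0 : ℝ) ≤ (m : ℝ) * ℓ ^ 2 := by positivity
  have h1 : HasDerivAt (ps1 ((m : ℝ) * ℓ ^ 2)) (ps2 ((m : ℝ) * ℓ ^ 2) s) s :=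
    ps1_der (by positivity)
  have h2 : HasDerivAt (fun s => ps1 ((m : ℝ) * ℓ ^ 2) (ℓ - s))
      (-(ps2 ((m : ℝ) * ℓ ^ 2) (ℓ - s))) s := by
    have h3 : HasDerivAt (ps1 ((m : ℝ) * ℓ ^ 2)) (ps2 ((m : ℝ) * ℓ ^ 2) (ℓ - s)) (ℓ - s) :=
      ps1_der (by have : 0 < ℓ - s := by linarith
                  positivity)
    have h4 : HasDerivAt (fun s => ℓ - s) (-1 : ℝ) s := by
      simpa using (hasDerivAt_id s).const_sub ℓ
    have h5 := HasDerivAt.comp s h3 h4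
    rw [mul_neg_one] at h5
    exact h5
  have h5 := h1.sub h2
  rw [sub_neg_eq_add] at h5
  exact h5.const_mul _

lemma FF_cont (n : ℕ) (ℓ : ℝ) : Continuous (FF n ℓ) := by
  unfold FF
  refine continuous_finsetSum _ fun m _ => ?_
  refine continuous_const.mul (((ps_cont _)).add ((ps_cont _).comp ?_))
  fun_prop

lemma FF_symm (n : ℕ) (ℓ : ℝ) : FF n ℓ ℓ = FF n ℓ 0 := by
  unfold FF
  refine Finset.sum_congr rfl fun m _ => ?_
  rw [sub_self, sub_zero, add_comm]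

/-- the number of vertices near a vertex -/
noncomputable def lowSum (n : ℕ) (ℓ : ℝ) : ℝ :=
  ∑ m ∈ Finset.range n, ((n - 1).choose m : ℝ) * (if (m : ℝ) < ℓ ^ 2 + 2 then 1 else 0)

noncomputable def highSum (n : ℕ) : ℝ :=
  ∑ m ∈ Finset.range n, ((n - 1).choose m : ℝ) * (if n - 1 ≤ 2 * m then 1 else 0)

lemma ps2_term {n m : ℕ} {ℓ t : ℝ} (hn : 37 ≤ n) (hmn : m < n) (h1 : 1 ≤ ℓ)
    (h2 : 6 * ℓ ≤ Real.sqrt n) (ht : 0 < t) (htl : t ≤ ℓ) :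
    ps2 ((m : ℝ) * ℓ ^ 2) t ≤ (if (m : ℝ) < ℓ ^ 2 + 2 then 1 else 0) -
      (1 / 2) * (Real.exp (-(Real.sqrt n * ℓ)) / (Real.sqrt n * ℓ)) *
        (if n - 1 ≤ 2 * m then 1 else 0) := by
  have hℓ : 0 < ℓ := by linarith
  have hnr : (37 : ℝ) ≤ n := by exact_mod_cast hn
  have hsn : 0 < Real.sqrt n := Real.sqrt_pos.2 (by linarith)
  have hδ : 0 < Real.exp (-(Real.sqrt n * ℓ)) / (Real.sqrt n * ℓ) := by positivity
  by_cases hb : n - 1 ≤ 2 * m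
  · rw [if_pos hb]
    have hmr : (n : ℝ) - 1 ≤ 2 * m := by
      have : n ≤ 2 * m + 1 := by omega
      have : (n : ℝ) ≤ 2 * m + 1 := by exact_mod_cast this
      linarith
    have hm0 : (0 : ℝ) < m := by linarith
    have hmn' : (m : ℝ) + 1 ≤ n := by exact_mod_cast hmn
    have hB : ℓ / Real.sqrt m + 1 / m ≤ 1 / 2 := by
      have hm18 : (18 : ℝ) ≤ m := by linarith
      have hsm : 0 < Real.sqrt m := Real.sqrt_pos.2 hm0
      have a1 : 1 / (m : ℝ) ≤ 1 / 18 := by gcongr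
      -- `3 ℓ ≤ √m`: `9ℓ² ≤ n/4 ≤ m`
      have a2 : 3 * ℓ ≤ Real.sqrt m := by
        apply Real.le_sqrt_of_sq_le
        have : (6 * ℓ) ^ 2 ≤ n := by
          exact (Real.le_sqrt' (by positivity : (0:ℝ) < 6 * ℓ)).1 h2
        nlinarith
      have a3 : ℓ / Real.sqrt m ≤ 1 / 3 := by
        rw [div_le_div_iff₀ hsm (by norm_num)]
        linarith
      linarith
    have h3 := ps2_neg hm0 hmn' hℓ ht.le htl hB
    have h4 : (0 : ℝ) ≤ (if (m : ℝ) < ℓ ^ 2 + 2 then 1 else 0) := by split_ifs <;> norm_num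
    linarith
  · rw [if_neg hb]
    by_cases hc : (m : ℝ) < ℓ ^ 2 + 2
    · rw [if_pos hc]
      have := ps2_le_one m h1 ht htl
      linarith
    · rw [if_neg hc]
      have := ps2_nonpos (not_lt.1 hc) hℓ ht.le htl
      linarith

theorem FF2_nonpos {n : ℕ} {ℓ s : ℝ} (hn : 37 ≤ n) (h1 : 1 ≤ ℓ) (h2 : 6 * ℓ ≤ Real.sqrt n)
    (hnum : lowSum n ℓ ≤ (1 / 2) * (Real.exp (-(Real.sqrt n * ℓ)) / (Real.sqrt n * ℓ)) * highSum n)
    (hs : 0 < s) (hsl : s < ℓ) : FF2 n ℓ s ≤ 0 := by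
  have h3 : FF2 n ℓ s ≤ ∑ m ∈ Finset.range n, ((n - 1).choose m : ℝ) *
      (2 * ((if (m : ℝ) < ℓ ^ 2 + 2 then 1 else 0) -
      (1 / 2) * (Real.exp (-(Real.sqrt n * ℓ)) / (Real.sqrt n * ℓ)) *
        (if n - 1 ≤ 2 * m then 1 else 0))) := by
    unfold FF2
    refine Finset.sum_le_sum fun m hm => ?_
    have hm' := Finset.mem_range.1 hm
    refine mul_le_mul_of_nonneg_left ?_ (Nat.cast_nonneg _)
    have e1 := ps2_term hn hm' h1 h2 hs hsl.le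
    have e2 := ps2_term (t := ℓ - s) hn hm' h1 h2 (by linarith) (by linarith)
    linarith
  have h4 : ∑ m ∈ Finset.range n, ((n - 1).choose m : ℝ) *
      (2 * ((if (m : ℝ) < ℓ ^ 2 + 2 then 1 else 0) -
      (1 / 2) * (Real.exp (-(Real.sqrt n * ℓ)) / (Real.sqrt n * ℓ)) *
        (if n - 1 ≤ 2 * m then 1 else 0))) =
      2 * (lowSum n ℓ - (1 / 2) * (Real.exp (-(Real.sqrt n * ℓ)) / (Real.sqrt n * ℓ)) *
        highSum n) := by
    unfold lowSum highSum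
    rw [Finset.mul_sum, ← Finset.sum_sub_distrib, Finset.mul_sum]
    refine Finset.sum_congr rfl fun m _ => ?_
    ring
  rw [h4] at h3
  linarith

theorem FF_min {n : ℕ} {ℓ s : ℝ} (hn : 37 ≤ n) (h1 : 1 ≤ ℓ) (h2 : 6 * ℓ ≤ Real.sqrt n)
    (hnum : lowSum n ℓ ≤ (1 / 2) * (Real.exp (-(Real.sqrt n * ℓ)) / (Real.sqrt n * ℓ)) * highSum n)
    (hs : 0 ≤ s) (hsl : s ≤ ℓ) : FF n ℓ 0 ≤ FF n ℓ s := by
  have hℓ : 0 < ℓ := by linarith
  have hconc : ConcaveOn ℝ (Icc 0 ℓ) (FF n ℓ) := by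
    refine concaveOn_of_hasDerivWithinAt2_nonpos (f' := FF1 n ℓ) (f'' := FF2 n ℓ)
      (convex_Icc 0 ℓ) (FF_cont n ℓ).continuousOn ?_ ?_ ?_
    · intro x hx
      rw [interior_Icc] at hx
      exact (FF_der hx.1 hx.2).hasDerivWithinAt
    · intro x hx
      rw [interior_Icc] at hx
      exact (FF1_der hx.1 hx.2).hasDerivWithinAt
    · intro x hx
      rw [interior_Icc] at hx
      exact FF2_nonpos hn h1 h2 hnum hx.1 hx.2
  have := hconc.min_le_of_mem_Icc (left_mem_Icc.2 hℓ.le) (right_mem_Icc.2 hℓ.le) ⟨hs, hsl⟩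
  rwa [FF_symm, min_self] at this

end Pool.Agent.Helper70.CU
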