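import Mathlib

/-!
# Second derivatives of `e^{-√(a+t²)}`
-/

set_option autoImplicit false

namespace Pool.Agent.Helper70.CU

/-- `e^{-√(a + t²)}` -/
noncomputable def ps (a t : ℝ) : ℝ := Real.exp (-Real.sqrt (a + t ^ 2))

/-- its derivative -/
noncomputable def ps1 (a t : ℝ) : ℝ :=
  -(t / Real.sqrt (a + t ^ 2)) * Real.exp (-Real.sqrt (a + t ^ 2))

/-- its second derivative -/
noncomputable def ps2 (a t : ℝ) : ℝ :=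
  Real.exp (-Real.sqrt (a + t ^ 2)) / Real.sqrt (a + t ^ 2) *
    (t ^ 2 / Real.sqrt (a + t ^ 2) + t ^ 2 / (Real.sqrt (a + t ^ 2)) ^ 2 - 1)

lemma sq_der {a t : ℝ} (h : 0 < a + t ^ 2) :
    HasDerivAt (fun t : ℝ => Real.sqrt (a + t ^ 2)) (t / Real.sqrt (a + t ^ 2)) t := by
  have h1 : HasDerivAt (fun t : ℝ => a + t ^ 2) (2 * t) t := by
    have := (hasDerivAt_pow 2 t).const_add a
    simpa using this
  have h2 := h1.sqrt h.ne'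
  have e : 2 * t / (2 * Real.sqrt (a + t ^ 2)) = t / Real.sqrt (a + t ^ 2) := by
    rw [mul_div_mul_left _ _ two_ne_zero]
  rwa [e] at h2

lemma ps_der {a t : ℝ} (h : 0 < a + t ^ 2) : HasDerivAt (ps a) (ps1 a t) t := by
  have h1 := (sq_der h).neg.exp
  unfold ps1
  rw [mul_comm]
  exact h1

lemma ps1_der {a t : ℝ} (h : 0 < a + t ^ 2) : HasDerivAt (ps1 a) (ps2 a t) t := by
  have hr : 0 < Real.sqrt (a + t ^ 2) := Real.sqrt_pos.2 h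
  have h1 := (((hasDerivAt_id t).div (sq_der h) hr.ne').neg).mul ((sq_der h).neg.exp)
  have e : ps2 a t = -((1 * Real.sqrt (a + t ^ 2) - t * (t / Real.sqrt (a + t ^ 2))) /
      (Real.sqrt (a + t ^ 2)) ^ 2) * Real.exp (-Real.sqrt (a + t ^ 2)) +
      -(t / Real.sqrt (a + t ^ 2)) *
        (Real.exp (-Real.sqrt (a + t ^ 2)) * -(t / Real.sqrt (a + t ^ 2))) := by
    unfold ps2
    field_simp
    ring
  rw [e]
  exact h1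

lemma ps_cont (a : ℝ) : Continuous (ps a) := by
  unfold ps
  fun_prop

/-- basic bound, `a = j ℓ²` -/
lemma ps2_le {j ℓ t : ℝ} (hj : 0 < j) (hℓ : 0 < ℓ) (ht : 0 ≤ t) (htl : t ≤ ℓ) :
    ps2 (j * ℓ ^ 2) t ≤ Real.exp (-Real.sqrt (j * ℓ ^ 2 + t ^ 2)) /
      Real.sqrt (j * ℓ ^ 2 + t ^ 2) * (ℓ / Real.sqrt j + 1 / j - 1) := by
  have h0 : 0 < j * ℓ ^ 2 + t ^ 2 := by positivity
  have hr : 0 < Real.sqrt (j * ℓ ^ 2 + t ^ 2) := Real.sqrt_pos.2 h0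
  have hr2 : Real.sqrt j * ℓ ≤ Real.sqrt (j * ℓ ^ 2 + t ^ 2) := by
    apply Real.le_sqrt_of_sq_le
    rw [mul_pow, Real.sq_sqrt hj.le]
    nlinarith [sq_nonneg t]
  have hsj : 0 < Real.sqrt j := Real.sqrt_pos.2 hj
  have ht2 : t ^ 2 ≤ ℓ ^ 2 := by gcongr
  unfold ps2
  refine mul_le_mul_of_nonneg_left ?_ (by positivity)
  have h1 : t ^ 2 / Real.sqrt (j * ℓ ^ 2 + t ^ 2) ≤ ℓ / Real.sqrt j := by
    calc t ^ 2 / Real.sqrt (j * ℓ ^ 2 + t ^ 2) ≤ ℓ ^ 2 / (Real.sqrt j * ℓ) := by gcongr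
      _ = ℓ / Real.sqrt j := by field_simp
  have h2 : t ^ 2 / (Real.sqrt (j * ℓ ^ 2 + t ^ 2)) ^ 2 ≤ 1 / j := by
    calc t ^ 2 / (Real.sqrt (j * ℓ ^ 2 + t ^ 2)) ^ 2 ≤ ℓ ^ 2 / (Real.sqrt j * ℓ) ^ 2 := by gcongr
      _ = 1 / j := by rw [mul_pow, Real.sq_sqrt hj.le]; field_simp
  linarith

lemma ps2_zero {t : ℝ} (ht : 0 < t) : ps2 0 t = Real.exp (-t) := by
  unfold ps2
  rw [zero_add, Real.sqrt_sq ht.le]
  field_simp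
  ring

/-- (B3) -/
lemma ps2_le_one (j : ℕ) {ℓ t : ℝ} (hℓ : 1 ≤ ℓ) (ht : 0 < t) (htl : t ≤ ℓ) :
    ps2 (j * ℓ ^ 2) t ≤ 1 := by
  rcases Nat.eq_zero_or_pos j with rfl | hj
  · rw [Nat.cast_zero, zero_mul, ps2_zero ht]
    exact Real.exp_le_one_iff.2 (by linarith)
  · have hj1 : (1 : ℝ) ≤ j := by exact_mod_cast hj
    have hj0 : (0 : ℝ) < j := by linarith
    have hℓ0 : 0 < ℓ := by linarith
    have h0 : 0 < (j : ℝ) * ℓ ^ 2 + t ^ 2 := by positivity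
    have hr : 0 < Real.sqrt ((j : ℝ) * ℓ ^ 2 + t ^ 2) := Real.sqrt_pos.2 h0
    have hr1 : ℓ ≤ Real.sqrt ((j : ℝ) * ℓ ^ 2 + t ^ 2) := by
      apply Real.le_sqrt_of_sq_le
      nlinarith [sq_nonneg t, sq_nonneg ℓ]
    have hs1 : 1 ≤ Real.sqrt j := Real.one_le_sqrt.2 hj1
    refine (ps2_le hj0 hℓ0 ht.le htl).trans ?_
    have h1 : ℓ / Real.sqrt j + 1 / j - 1 ≤ ℓ + 1 := by
      have a1 : ℓ / Real.sqrt j ≤ ℓ := div_le_self hℓ0.le hs1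
      have a2 : 1 / (j : ℝ) ≤ 1 := by rw [div_le_one hj0]; exact hj1
      linarith
    calc Real.exp (-Real.sqrt ((j : ℝ) * ℓ ^ 2 + t ^ 2)) / Real.sqrt ((j : ℝ) * ℓ ^ 2 + t ^ 2) *
          (ℓ / Real.sqrt j + 1 / j - 1)
        ≤ Real.exp (-Real.sqrt ((j : ℝ) * ℓ ^ 2 + t ^ 2)) / Real.sqrt ((j : ℝ) * ℓ ^ 2 + t ^ 2) *
          (ℓ + 1) := mul_le_mul_of_nonneg_left h1 (by positivity)
      _ ≤ Real.exp (-ℓ) / ℓ * (ℓ + 1) := by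
          refine mul_le_mul_of_nonneg_right ?_ (by linarith)
          gcongr
      _ ≤ 1 := by
          have h2 : ℓ + 1 ≤ Real.exp ℓ := Real.add_one_le_exp ℓ
          rw [Real.exp_neg, div_mul_eq_mul_div, div_le_one hℓ0, inv_mul_eq_div,
            div_le_iff₀ (Real.exp_pos ℓ)]
          nlinarith [Real.exp_pos ℓ]

/-- (B2) -/
lemma ps2_nonpos {j ℓ t : ℝ} (hj : ℓ ^ 2 + 2 ≤ j) (hℓ : 0 < ℓ) (ht : 0 ≤ t) (htl : t ≤ ℓ) :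
    ps2 (j * ℓ ^ 2) t ≤ 0 := by
  have hj0 : 0 < j := by nlinarith [sq_nonneg ℓ]
  refine (ps2_le hj0 hℓ ht htl).trans ?_
  have h0 : 0 < j * ℓ ^ 2 + t ^ 2 := by positivity
  have hx : 0 < Real.sqrt j := Real.sqrt_pos.2 hj0
  have hxx : Real.sqrt j ^ 2 = j := Real.sq_sqrt hj0.le
  have hxl : ℓ ≤ Real.sqrt j := Real.le_sqrt_of_sq_le (by linarith)
  have h1 : ℓ / Real.sqrt j + 1 / j - 1 ≤ 0 := by
    have h2 : ℓ / Real.sqrt j = ℓ * Real.sqrt j / j := by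
      rw [div_eq_div_iff hx.ne' hj0.ne']
      nlinarith
    rw [h2, ← add_div, sub_nonpos, div_le_one hj0]
    -- `ℓ x + 1 ≤ x²`
    have h3 : ℓ * Real.sqrt j ≤ (ℓ ^ 2 + Real.sqrt j ^ 2) / 2 := by
      nlinarith [sq_nonneg (ℓ - Real.sqrt j)]
    linarith
  exact mul_nonpos_of_nonneg_of_nonpos (by positivity) h1

/-- (B1) -/
lemma ps2_neg {j ℓ t m : ℝ} (hj0 : 0 < j) (hjm : j + 1 ≤ m) (hℓ : 0 < ℓ) (ht : 0 ≤ t) (htl : t ≤ ℓ)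
    (hB : ℓ / Real.sqrt j + 1 / j ≤ 1 / 2) :
    ps2 (j * ℓ ^ 2) t ≤ -(1 / 2) * (Real.exp (-(Real.sqrt m * ℓ)) / (Real.sqrt m * ℓ)) := by
  refine (ps2_le hj0 hℓ ht htl).trans ?_
  have h0 : 0 < j * ℓ ^ 2 + t ^ 2 := by positivity
  have hr : 0 < Real.sqrt (j * ℓ ^ 2 + t ^ 2) := Real.sqrt_pos.2 h0
  have hm : 0 < m := by linarith
  have hr2 : Real.sqrt (j * ℓ ^ 2 + t ^ 2) ≤ Real.sqrt m * ℓ := by
    rw [Real.sqrt_le_left (by positivity), mul_pow, Real.sq_sqrt hm.le]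
    have ht2 : t ^ 2 ≤ ℓ ^ 2 := by gcongr
    nlinarith [sq_nonneg ℓ]
  have h1 : Real.exp (-(Real.sqrt m * ℓ)) / (Real.sqrt m * ℓ) ≤
      Real.exp (-Real.sqrt (j * ℓ ^ 2 + t ^ 2)) / Real.sqrt (j * ℓ ^ 2 + t ^ 2) := by
    gcongr
  have h2 : 0 < Real.exp (-Real.sqrt (j * ℓ ^ 2 + t ^ 2)) / Real.sqrt (j * ℓ ^ 2 + t ^ 2) := by
    positivity
  nlinarith

end Pool.Agent.Helper70.CU
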