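import Pool.Agent.Helper70.CU.Big5

/-!
# Monotonicity in `ℓ` of the edge inequality
-/

set_option autoImplicit false

open MeasureTheory Set Metric ProbabilityTheory
open scoped ENNReal NNReal Topology
open Pool.Agent.Results.MP_91ee6f_gt
open Pool.Agent.Helper70.MM
open Pool.Agent.Helper65.MM

namespace Pool.Agent.Helper70.CU

/-- the Gaussian density -/
noncomputable def gp (x : ℝ) : ℝ := gaussianPDFReal 0 1 x

lemma gp_eq (x : ℝ) : gp x = (Real.sqrt (2 * Real.pi))⁻¹ * Real.exp (-(x ^ 2) / 2) := by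
  unfold gp
  rw [gaussianPDFReal_def]
  simp

lemma gp_pos (x : ℝ) : 0 < gp x := by
  rw [gp_eq]; positivity

lemma gp_scale (k x : ℝ) : gp (k * x) = gp x * Real.exp ((1 - k ^ 2) * x ^ 2 / 2) := by
  rw [gp_eq, gp_eq, mul_assoc, ← Real.exp_add]
  congr 2
  ring

/-- the integrand -/
noncomputable def gi (n : ℕ) (ℓ s x : ℝ) : ℝ := th ℓ (la x) s * (th ℓ (la x) 0) ^ n

lemma FF_leb (n : ℕ) (ℓ s : ℝ) : FF (n + 1) ℓ s = ∫ x, gp x * gi n ℓ s x := by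
  rw [FF_int, integral_gaussianReal_eq_integral_smul (one_ne_zero)]
  rfl

lemma th_scale {ℓ k v x : ℝ} (hk : 0 < k) :
    th (k * ℓ) (la (k * x)) (k * ℓ * v) = th ℓ (la x) (ℓ * v) := by
  unfold th la
  have e1 : (2 * (k * x) ^ 2)⁻¹ * (k * ℓ * v) ^ 2 = (2 * x ^ 2)⁻¹ * (ℓ * v) ^ 2 := by
    rcases eq_or_ne x 0 with rfl | hx
    · simp
    · field_simp
  have e2 : (2 * (k * x) ^ 2)⁻¹ * (k * ℓ - k * ℓ * v) ^ 2 = (2 * x ^ 2)⁻¹ * (ℓ - ℓ * v) ^ 2 := by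
    rcases eq_or_ne x 0 with rfl | hx
    · simp
    · field_simp
  rw [e1, e2]

lemma gi_scale {n : ℕ} {ℓ k v x : ℝ} (hk : 0 < k) :
    gi n (k * ℓ) (k * ℓ * v) (k * x) = gi n ℓ (ℓ * v) x := by
  unfold gi
  rw [th_scale hk]
  congr 2
  have := th_scale (ℓ := ℓ) (k := k) (v := 0) (x := x) hk
  rw [mul_zero, mul_zero] at this
  exact this

lemma gi_int (n : ℕ) (ℓ s : ℝ) : Integrable (fun x => gp x * gi n ℓ s x) := by
  have h1 : Integrable gp := integrable_gaussianPDFReal 0 1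
  refine h1.mul_bdd (c := 2 * 2 ^ n) ?_ (Filter.Eventually.of_forall fun t => ?_)
  · exact ((th_meas ℓ s).mul ((th_meas ℓ 0).pow_const n)).aestronglyMeasurable
  · have h0 : 0 ≤ th ℓ (la t) s * (th ℓ (la t) 0) ^ n :=
      mul_nonneg (th_pos _ _ _).le (pow_nonneg (th_pos _ _ _).le _)
    unfold gi
    rw [Real.norm_of_nonneg h0]
    have h1 := th_le (ℓ := ℓ) (s := s) (la_nonneg t)
    have h2 := th_le (ℓ := ℓ) (s := 0) (la_nonneg t)
    have h3 := (th_pos ℓ (la t) 0).le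
    have h4 := (th_pos ℓ (la t) s).le
    gcongr

lemma FF_scale {n : ℕ} {ℓ k v : ℝ} (hk : 0 < k) :
    FF (n + 1) (k * ℓ) (k * ℓ * v) = k * ∫ x, gp (k * x) * gi n ℓ (ℓ * v) x := by
  rw [FF_leb]
  have h := Measure.integral_comp_mul_left
    (fun x => gp x * gi n (k * ℓ) (k * ℓ * v) x) k
  simp only [gi_scale hk] at h
  rw [h, smul_eq_mul, abs_of_pos (inv_pos.2 hk), ← mul_assoc, mul_inv_cancel₀ hk.ne', one_mul]

lemma gi_int' {n : ℕ} {ℓ k v : ℝ} (hk : 0 < k) :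
    Integrable (fun x => gp (k * x) * gi n ℓ (ℓ * v) x) := by
  have h := (gi_int n (k * ℓ) (k * ℓ * v)).comp_mul_left' hk.ne'
  simp only [gi_scale hk] at h
  exact h

theorem monL_half {n : ℕ} {ℓ k v : ℝ} (hℓ : 0 < ℓ) (hk : 0 < k) (hk1 : k ≤ 1) (hv : 0 < v)
    (hv2 : v ≤ 1 / 2) (h : FF (n + 1) ℓ 0 ≤ FF (n + 1) ℓ (ℓ * v)) :
    FF (n + 1) (k * ℓ) 0 ≤ FF (n + 1) (k * ℓ) (k * ℓ * v) := by
  obtain ⟨Λ, hΛ, h1, h2, _⟩ := fSCX ℓ (ℓ * v) hℓ (by positivity) (by nlinarith)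
  have e0 : FF (n + 1) (k * ℓ) 0 = k * ∫ x, gp (k * x) * gi n ℓ (ℓ * 0) x := by
    have := FF_scale (n := n) (ℓ := ℓ) (k := k) (v := 0) hk
    rwa [mul_zero (k * ℓ)] at this
  have e0' : FF (n + 1) ℓ 0 = ∫ x, gp x * gi n ℓ (ℓ * 0) x := by
    rw [FF_leb, mul_zero]
  rw [e0, FF_scale hk]
  refine mul_le_mul_of_nonneg_left ?_ hk.le
  rw [e0', FF_leb, ← sub_nonneg, ← integral_sub (gi_int n ℓ (ℓ * v)) (gi_int n ℓ (ℓ * 0))] at h
  rw [← sub_nonneg, ← integral_sub (gi_int' hk) (gi_int' hk)]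
  -- `c₀ = exp ((1-k²)/(4Λ))`
  have hpt : ∀ x : ℝ, Real.exp ((1 - k ^ 2) / (4 * Λ)) *
      (gp x * gi n ℓ (ℓ * v) x - gp x * gi n ℓ (ℓ * 0) x) ≤
      gp (k * x) * gi n ℓ (ℓ * v) x - gp (k * x) * gi n ℓ (ℓ * 0) x := by
    intro x
    rw [gp_scale]
    have hk2 : 0 ≤ 1 - k ^ 2 := by nlinarith
    have hp := th_pos ℓ (la x) 0
    have hpn : 0 ≤ (th ℓ (la x) 0) ^ n := pow_nonneg hp.le n
    have hg := gp_pos x
    have hgi : gi n ℓ (ℓ * v) x - gi n ℓ (ℓ * 0) x =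
        (th ℓ (la x) (ℓ * v) - th ℓ (la x) 0) * (th ℓ (la x) 0) ^ n := by
      unfold gi
      rw [mul_zero]
      ring
    have hxx : (1 - k ^ 2) * x ^ 2 / 2 = (1 - k ^ 2) * (x ^ 2 / 2) := by ring
    have hcc : (1 - k ^ 2) / (4 * Λ) = (1 - k ^ 2) * (1 / (4 * Λ)) := by ring
    rcases eq_or_ne x 0 with hx | hx
    · -- `x = 0`: all `th` are `2`
      have hla : la x = 0 := by rw [hx]; unfold la; simp
      have : gi n ℓ (ℓ * v) x = gi n ℓ (ℓ * 0) x := by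
        unfold gi th
        rw [hla]
        simp
      rw [this]
      simp
    have hx2 : 0 < x ^ 2 := by positivity
    rcases le_total (la x) Λ with h' | h'
    · have h4 := h1 (la x) (la_nonneg x) h'
      rw [RR_eq, le_div_iff₀ hp, one_mul] at h4
      have h6 : 0 ≤ gp x * (gi n ℓ (ℓ * v) x - gi n ℓ (ℓ * 0) x) := by
        rw [hgi]
        exact mul_nonneg hg.le (mul_nonneg (by linarith) hpn)
      have h5 : Real.exp ((1 - k ^ 2) / (4 * Λ)) ≤ Real.exp ((1 - k ^ 2) * x ^ 2 / 2) := by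
        apply Real.exp_le_exp.2
        rw [hxx, hcc]
        refine mul_le_mul_of_nonneg_left ?_ hk2
        unfold la at h'
        rw [inv_le_comm₀ (by positivity) hΛ] at h'
        have : 1 / (4 * Λ) = Λ⁻¹ / 4 := by field_simp
        rw [this]
        linarith
      nlinarith [mul_le_mul_of_nonneg_right h5 h6]
    · have h4 := h2 (la x) h'
      rw [RR_eq, div_le_iff₀ hp, one_mul] at h4
      have h6 : 0 ≤ gp x * (gi n ℓ (ℓ * 0) x - gi n ℓ (ℓ * v) x) := by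
        have : gi n ℓ (ℓ * 0) x - gi n ℓ (ℓ * v) x =
            (th ℓ (la x) 0 - th ℓ (la x) (ℓ * v)) * (th ℓ (la x) 0) ^ n := by
          linarith
        rw [this]
        exact mul_nonneg hg.le (mul_nonneg (by linarith) hpn)
      have h5 : Real.exp ((1 - k ^ 2) * x ^ 2 / 2) ≤ Real.exp ((1 - k ^ 2) / (4 * Λ)) := by
        apply Real.exp_le_exp.2
        rw [hxx, hcc]
        refine mul_le_mul_of_nonneg_left ?_ hk2
        unfold la at h'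
        rw [le_inv_comm₀ hΛ (by positivity)] at h'
        have : 1 / (4 * Λ) = Λ⁻¹ / 4 := by field_simp
        rw [this]
        linarith
      nlinarith [mul_le_mul_of_nonneg_right h5 h6]
  have h7 := integral_mono (((gi_int n ℓ (ℓ * v)).sub (gi_int n ℓ (ℓ * 0))).const_mul
    (Real.exp ((1 - k ^ 2) / (4 * Λ)))) ((gi_int' hk).sub (gi_int' hk)) (fun x => hpt x)
  refine le_trans ?_ h7
  have h8 : ∫ x, Real.exp ((1 - k ^ 2) / (4 * Λ)) *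
      (gp x * gi n ℓ (ℓ * v) x - gp x * gi n ℓ (ℓ * 0) x) =
      Real.exp ((1 - k ^ 2) / (4 * Λ)) *
      ∫ x, (gp x * gi n ℓ (ℓ * v) x - gp x * gi n ℓ (ℓ * 0) x) := integral_const_mul _ _
  exact h8 ▸ mul_nonneg (Real.exp_pos _).le h

theorem monL {n : ℕ} (hn : 1 ≤ n) {ℓ ℓ' : ℝ} (hℓ' : 0 < ℓ') (hle : ℓ' ≤ ℓ)
    (h : ∀ s, 0 ≤ s → s ≤ ℓ → FF n ℓ 0 ≤ FF n ℓ s) :
    ∀ s, 0 ≤ s → s ≤ ℓ' → FF n ℓ' 0 ≤ FF n ℓ' s := by
  obtain ⟨m, rfl⟩ : ∃ m, n = m + 1 := ⟨n - 1, by omega⟩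
  have hℓ : 0 < ℓ := by linarith
  set k := ℓ' / ℓ with hk
  have hk0 : 0 < k := div_pos hℓ' hℓ
  have hk1 : k ≤ 1 := (div_le_one hℓ).2 hle
  have hkl : k * ℓ = ℓ' := by rw [hk]; field_simp
  have hhalf : ∀ s, 0 ≤ s → s ≤ ℓ' / 2 → FF (m + 1) ℓ' 0 ≤ FF (m + 1) ℓ' s := by
    intro s h1 h2
    rcases h1.eq_or_lt with h3 | h3
    · rw [← h3]
    · have hv : 0 < s / ℓ' := div_pos h3 hℓ'
      have hv2 : s / ℓ' ≤ 1 / 2 := by rw [div_le_iff₀ hℓ']; linarith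
      have := monL_half (n := m) hℓ hk0 hk1 hv hv2 (h (ℓ * (s / ℓ')) (by positivity)
        (by nlinarith))
      rw [hkl] at this
      have e : ℓ' * (s / ℓ') = s := by field_simp
      rwa [e] at this
  intro s h1 h2
  rcases le_total s (ℓ' / 2) with h3 | h3
  · exact hhalf s h1 h3
  · rw [← FF_symm' _ ℓ' s]
    exact hhalf _ (by linarith) (by linarith)

theorem cube_final2 (n : ℕ) (hn : 2 ≤ n) (ℓ : ℝ) (hℓ : 0 < ℓ) :
    ∃ w : Measure (En n), IsTheMaximising (cube n ℓ) w ∧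
      (w = vertUnif n ℓ → 1 ≤ vertSlope n ℓ ∧ ℓ < 2 * Real.sqrt n) ∧
      (n ≤ 3 ∨ 10 ^ 7 ≤ n → 1 ≤ vertSlope n ℓ → w = vertUnif n ℓ) ∧
      (4 ≤ n → ℓ ≤ max 1 (Real.sqrt n / 6) → w = vertUnif n ℓ) ∧
      (w = vertUnif n ℓ →
        (∀ (m : ℕ) (ℓ' : ℝ), n ≤ m → 0 < ℓ' → ℓ' ≤ ℓ →
          IsTheMaximising (cube m ℓ') (vertUnif m ℓ')) ∧
        w.support = range (vert n ℓ) ∧
        MaxDiversity (cube n ℓ) (2 ^ n /
          ∑ k ∈ Finset.range (n + 1), (n.choose k : ℝ) * Real.exp (-(Real.sqrt k * ℓ)))) := by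
  obtain ⟨w, hw, h1, h2, h3, h4, h5⟩ := cube_vertices3 fMON n hn ℓ hℓ
  refine ⟨w, hw, fun h => ⟨h1 h, h2 h⟩, h3, h4, fun h => ⟨?_, h5 h⟩⟩
  intro m ℓ' hm hℓ' hle
  rw [h] at hw
  exact vert_of_edge (by omega) hℓ' (monL (by omega) hℓ' hle
    (mon_le fMON (by omega) hm hℓ (edge_of_vert hn hℓ hw)))

end Pool.Agent.Helper70.CU
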