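import Pool.Agent.Helper70.CU.Conc

/-!
# The numerical inequality
-/

set_option autoImplicit false

open Set

namespace Pool.Agent.Helper70.CU

lemma sum_choose_real (N : ℕ) : ∑ m ∈ Finset.range (N + 1), (N.choose m : ℝ) = 2 ^ N := by
  have := Nat.sum_range_choose N
  exact_mod_cast this

lemma highSum_ge {n : ℕ} (hn : 1 ≤ n) : (2 : ℝ) ^ (n - 1) / 2 ≤ highSum n := by
  obtain ⟨N, rfl⟩ : ∃ N, n = N + 1 := ⟨n - 1, by omega⟩
  simp only [Nat.add_sub_cancel]
  have h1 : highSum (N + 1) = ∑ m ∈ Finset.range (N + 1), (N.choose m : ℝ) *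
      (if N ≤ 2 * m then 1 else 0) := by
    unfold highSum
    simp only [Nat.add_sub_cancel]
  have h2 : highSum (N + 1) = ∑ m ∈ Finset.range (N + 1), (N.choose m : ℝ) *
      (if 2 * m ≤ N then 1 else 0) := by
    rw [h1, ← Finset.sum_range_reflect]
    refine Finset.sum_congr rfl fun m hm => ?_
    have hm' : m ≤ N := Nat.lt_succ_iff.1 (Finset.mem_range.1 hm)
    have e1 : N + 1 - 1 - m = N - m := by omega
    rw [e1, Nat.choose_symm hm']
    have e2 : (N ≤ 2 * (N - m)) ↔ (2 * m ≤ N) := by omega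
    simp only [e2]
  have h3 : (2 : ℝ) ^ N ≤ highSum (N + 1) + highSum (N + 1) := by
    nth_rewrite 1 [h1]
    rw [h2, ← Finset.sum_add_distrib, ← sum_choose_real N]
    refine Finset.sum_le_sum fun m _ => ?_
    have hc : (0 : ℝ) ≤ (N.choose m : ℝ) := Nat.cast_nonneg _
    rcases le_total N (2 * m) with h | h
    · rw [if_pos h]
      split_ifs <;> linarith
    · rw [if_pos h]
      split_ifs <;> linarith
  linarith

lemma exp_neg_two_le : Real.exp (-2) ≤ 1 / 7 := by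
  have h1 : (2.7182818283 : ℝ) < Real.exp 1 := Real.exp_one_gt_d9
  have h2 : Real.exp 2 = Real.exp 1 * Real.exp 1 := by
    rw [← Real.exp_add]; norm_num
  have h3 : (7 : ℝ) ≤ Real.exp 2 := by rw [h2]; nlinarith
  rw [Real.exp_neg, one_div]
  gcongr

lemma lowSum_le {n : ℕ} (hn : 1 ≤ n) (ℓ : ℝ) :
    lowSum n ℓ ≤ Real.exp (2 * ℓ ^ 2 + 4 + ((n : ℝ) - 1) / 7) := by
  obtain ⟨N, rfl⟩ : ∃ N, n = N + 1 := ⟨n - 1, by omega⟩
  have h1 : lowSum (N + 1) ℓ ≤ ∑ m ∈ Finset.range (N + 1), (N.choose m : ℝ) *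
      (Real.exp (2 * ℓ ^ 2 + 4) * Real.exp (-2) ^ m) := by
    unfold lowSum
    simp only [Nat.add_sub_cancel]
    refine Finset.sum_le_sum fun m _ => mul_le_mul_of_nonneg_left ?_ (Nat.cast_nonneg _)
    rw [← Real.exp_nat_mul, ← Real.exp_add]
    split_ifs with h
    · apply Real.one_le_exp
      linarith
    · exact (Real.exp_pos _).le
  have h2 : ∑ m ∈ Finset.range (N + 1), (N.choose m : ℝ) *
      (Real.exp (2 * ℓ ^ 2 + 4) * Real.exp (-2) ^ m) =
      Real.exp (2 * ℓ ^ 2 + 4) * (Real.exp (-2) + 1) ^ N := by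
    rw [add_pow, Finset.mul_sum]
    refine Finset.sum_congr rfl fun m _ => ?_
    rw [one_pow]
    ring
  have h3 : (Real.exp (-2) + 1) ^ N ≤ Real.exp ((N : ℝ) / 7) := by
    have h4 : Real.exp (-2) + 1 ≤ Real.exp (1 / 7) := by
      have := Real.add_one_le_exp (1 / 7 : ℝ)
      linarith [exp_neg_two_le]
    calc (Real.exp (-2) + 1) ^ N ≤ Real.exp (1 / 7) ^ N := by
          gcongr
      _ = Real.exp ((N : ℝ) / 7) := by
          rw [← Real.exp_nat_mul]; congr 1; ring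
  rw [h2] at h1
  refine h1.trans ?_
  have e : 2 * ℓ ^ 2 + 4 + (((N + 1 : ℕ) : ℝ) - 1) / 7 = (2 * ℓ ^ 2 + 4) + (N : ℝ) / 7 := by
    push_cast; ring
  rw [e, Real.exp_add (2 * ℓ ^ 2 + 4)]
  gcongr

theorem num {n : ℕ} {ℓ : ℝ} (hn : 37 ≤ n) (h1 : 1 ≤ ℓ) (h2 : 6 * ℓ ≤ Real.sqrt n) :
    lowSum n ℓ ≤ (1 / 2) * (Real.exp (-(Real.sqrt n * ℓ)) / (Real.sqrt n * ℓ)) * highSum n := by
  have hℓ : 0 < ℓ := by linarith
  have hnr : (37 : ℝ) ≤ n := by exact_mod_cast hn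
  have hn0 : (0 : ℝ) ≤ n := by linarith
  have hsn : 0 < Real.sqrt n := Real.sqrt_pos.2 (by linarith)
  have hss : Real.sqrt n * Real.sqrt n = n := Real.mul_self_sqrt hn0
  have hX : Real.sqrt n * ℓ ≤ n / 6 := by nlinarith
  have hX0 : 0 < Real.sqrt n * ℓ := by positivity
  have hl2 : ℓ ^ 2 ≤ n / 36 := by nlinarith
  refine (lowSum_le (by omega) ℓ).trans ?_
  have hH := highSum_ge (n := n) (by omega)
  have hpow : (2 : ℝ) ^ (n - 1) / 2 = Real.exp (((n : ℝ) - 2) * Real.log 2) := by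
    have e1 : (2 : ℝ) ^ (n - 1) = Real.exp (((n : ℝ) - 1) * Real.log 2) := by
      have e2 : ((n : ℝ) - 1) = ((n - 1 : ℕ) : ℝ) := by
        rw [Nat.cast_sub (by omega)]; norm_num
      rw [e2, Real.exp_nat_mul, Real.exp_log two_pos]
    have e3 : ((n : ℝ) - 2) * Real.log 2 = ((n : ℝ) - 1) * Real.log 2 - Real.log 2 := by ring
    rw [e1, e3, Real.exp_sub, Real.exp_log two_pos]
  -- main estimate
  have hlog : (0.6931471803 : ℝ) < Real.log 2 := Real.log_two_gt_d9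
  have hE : (n : ℝ) / 3 ≤ Real.exp (n / 8) := by
    have := Real.quadratic_le_exp_of_nonneg (x := (n : ℝ) / 8) (by positivity)
    nlinarith
  have hmain : Real.exp (2 * ℓ ^ 2 + 4 + ((n : ℝ) - 1) / 7) *
      (2 * (Real.sqrt n * ℓ) * Real.exp (Real.sqrt n * ℓ)) ≤
      Real.exp (((n : ℝ) - 2) * Real.log 2) := by
    calc Real.exp (2 * ℓ ^ 2 + 4 + ((n : ℝ) - 1) / 7) *
        (2 * (Real.sqrt n * ℓ) * Real.exp (Real.sqrt n * ℓ))
        ≤ Real.exp (2 * ℓ ^ 2 + 4 + ((n : ℝ) - 1) / 7) *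
        (Real.exp (n / 8) * Real.exp (n / 6)) := by
          gcongr
          linarith
      _ = Real.exp (2 * ℓ ^ 2 + 4 + ((n : ℝ) - 1) / 7 + (n / 8 + n / 6)) := by
          rw [Real.exp_add _ ((n : ℝ) / 8 + n / 6), Real.exp_add ((n : ℝ) / 8)]
      _ ≤ Real.exp (((n : ℝ) - 2) * Real.log 2) := by
          apply Real.exp_le_exp.2
          nlinarith
  calc Real.exp (2 * ℓ ^ 2 + 4 + ((n : ℝ) - 1) / 7)
      ≤ (1 / 2) * (Real.exp (-(Real.sqrt n * ℓ)) / (Real.sqrt n * ℓ)) *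
        Real.exp (((n : ℝ) - 2) * Real.log 2) := by
        have e4 : (1 / 2) * (Real.exp (-(Real.sqrt n * ℓ)) / (Real.sqrt n * ℓ)) *
            Real.exp (((n : ℝ) - 2) * Real.log 2) =
            Real.exp (((n : ℝ) - 2) * Real.log 2) /
              (2 * (Real.sqrt n * ℓ) * Real.exp (Real.sqrt n * ℓ)) := by
          rw [Real.exp_neg]
          field_simp
        rw [e4, le_div_iff₀ (by positivity)]
        exact hmain
    _ ≤ _ := by
        rw [← hpow]
        gcongr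

end Pool.Agent.Helper70.CU
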