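import Pool.Agent.Results.MP_91ee6f_gt.CubeVertices

/-!
# The first version of `CubeVertices` is contained in the present one
-/

open MeasureTheory Set Metric
open scoped ENNReal
open Pool.Agent.Results.MP_91ee6f_gt

example (n : ℕ) (hn : 2 ≤ n) (ℓ : ℝ) (hℓ : 0 < ℓ) :
    ∃ w : Measure (En n), IsTheMaximising (cube n ℓ) w ∧
      (w = vertUnif n ℓ → 1 ≤ vertSlope n ℓ) ∧
      (n ≤ 3 → 1 ≤ vertSlope n ℓ → w = vertUnif n ℓ) ∧
      (4 ≤ n → ℓ ≤ 1 → w = vertUnif n ℓ) ∧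
      (w = vertUnif n ℓ → w.support = range (vert n ℓ) ∧
        MaxDiversity (cube n ℓ) (2 ^ n /
          ∑ k ∈ Finset.range (n + 1), (n.choose k : ℝ) * Real.exp (-(Real.sqrt k * ℓ)))) := by
  obtain ⟨w, hw, h1, h2, h3, h4⟩ := CubeVertices.result n hn ℓ hℓ
  exact ⟨w, hw, fun h => (h1 h).1, fun h => h2 (Or.inl h),
    fun h h' => h3 h (h'.trans (le_max_left _ _)), fun h => (h4 h).2⟩
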